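import Pool.Agent.N855.RQ.Par15
import Pool.Agent.N974.RQ.Dual
import Pool.Agent.N218.RQ.Val15
import Pool.Agent.N218.RQ.Fac15n
import Pool.Agent.N877.P15.SR
import Pool.Agent.N916.RE.Fin
import Pool.Agent.N693.P21.R
import Pool.Agent.N693.P21.Fin
import Pool.Agent.N693.P21.R3b
import Pool.Agent.N693.P21.K4
import Pool.Agent.N972.GC.Defs

/-!
# Level `15`, the classes `R15`, `R15r`: parity of the crossing number and the rank form of the
# conjecture
-/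

set_option autoImplicit false

namespace Pool.Agent.N855.RQp

open Finset
open Pool.Agent.N969.RQ
open Pool.Agent.N973.P15G (Aii)
open Pool.Agent.N972.GC (CY)
open Pool.Agent.N974.RQ (mA)

/-- the constants of the class `Aii` -/
def S_KY15 : Prop := ∀ A, Aii A → ∃ κ y : ℤ,
  (∀ l : ℕ, Nat.Prime l → Pool.Agent.N969.P15.Cls0 l → ¬ l ∣ A →
    9 * Pool.Agent.N973.P15G.P A (A * l) = -4 * κ * Pool.Agent.N969.P15.cc l ^ 2) ∧
  -κ = (2 ^ A.primeFactors.card * y) ^ 2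

open Classical in
/-- the identity of the criteria -/
def S_ID15 : Prop := ∀ D, (R15 D ∨ R15r D) → ∃ p : ℕ, p.Prime ∧ p ∣ D ∧
  (Odd ((ud D).filter fun d => p ∣ d ∧ d ≠ D ∧ En5 D d).card ↔ CY 5 D)

/-- the parity statements for the lattices -/
theorem t_RR : RR :=
  ⟨Pool.Agent.N877.P15.t_R, Pool.Agent.N916.RE.t_RE, Pool.Agent.N693.P21.R.t_R,
    Pool.Agent.N693.P21.t_RE, Pool.Agent.N693.P21.R3.t_R3, Pool.Agent.N693.P21.K.t_R3E⟩

theorem dvd15 (hB : S_BILJ15c) (hC : S_CP5) (hBn : S_BILJ15n) (hI : S_KY15) {D : ℕ} (hD : R15 D) :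
    (2 : ℤ) ^ (D.primeFactors.card - 1) ∣ J 15 o5 D 1 1 3 := by
  have h1 : D ≠ 1 := by have := hD.1.1; omega
  exact (par15 t_RR (Pool.Agent.N218.RQ.F15.s_FAC15 hB)
    (hJ15 (Pool.Agent.N218.RQ.F15n.s_FAC15n hC hBn) hI) D hD D.minFac (Nat.minFac_prime h1)
    (Nat.minFac_dvd D)).dvd

/-- **the parity of the crossing number, `3` split** -/
theorem y15 (hB : S_BILJ15c) (hC : S_CP5) (hBn : S_BILJ15n) (hI : S_KY15) (hid : S_ID15)
    {D : ℕ} (hD : R15 D) : Val (D.primeFactors.card - 1) (J 15 o5 D 1 1 3) (CY 5 D) := by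
  obtain ⟨p, hp, hpD, h⟩ := hid D (Or.inl hD)
  refine (par15 t_RR (Pool.Agent.N218.RQ.F15.s_FAC15 hB)
    (hJ15 (Pool.Agent.N218.RQ.F15n.s_FAC15n hC hBn) hI) D hD p hp hpD).congr ?_
  rw [← h]

/-- **the parity of the crossing number, `3 ∣ D`** -/
theorem y15r (hB : S_BILJ15c) (hC : S_CP5) (hBn : S_BILJ15n) (hI : S_KY15) (hid : S_ID15)
    {D : ℕ} (hD : R15r D) : Val (D.primeFactors.card - 2) (J 15 o5 D 1 1 3) (CY 5 D) := by
  obtain ⟨p, hp, hpD, h⟩ := hid D (Or.inr hD)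
  refine (par15r t_RR (Pool.Agent.N218.RQ.F15.s_FAC15 hB) (fun D hD => dvd15 hB hC hBn hI hD)
    D hD p hp hpD).congr ?_
  rw [← h]

theorem Val.ne_zero' {k : ℕ} {x : ℤ} {e : Prop} (h : Val k x e) (he : e) : x ≠ 0 := by
  obtain ⟨z, rfl, h1⟩ := h
  have h2 : z ≠ 0 := by
    rintro rfl
    exact absurd (h1.2 he) (by decide)
  exact mul_ne_zero (by positivity) h2

/-- **the rank form of the conjecture, level `15`, `5` split, `3` split or ramified** -/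
theorem rank_R15 (hB : S_BILJ15c) (hC : S_CP5) (hBn : S_BILJ15n) (hI : S_KY15) (hid : S_ID15)
    {A : ℕ} (hA : R15 A ∨ R15r A) (hY : CY 5 A) (hfin : Pool.Agent.N974.GN.Fin15 (mA A : ℤ)) :
    Pool.Agent.Y687.RankBSD (-12987 * (mA A : ℤ) ^ 2) (-263466 * (mA A : ℤ) ^ 3) := by
  refine Pool.Agent.N974.RQ.rank15 (Pool.Agent.N218.RQ.F15.s_NV15 hB) hA ?_ hfin
  rcases hA with h | h
  · exact (y15 hB hC hBn hI hid h).ne_zero' hY
  · exact (y15r hB hC hBn hI hid h).ne_zero' hY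

end Pool.Agent.N855.RQp
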