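import Pool.Agent.N855.RQ.Par21
import Pool.Agent.N877.P21G.Defs3
import Pool.Agent.N974.RQ.Dual
import Pool.Agent.N218.RQ.Val21
import Pool.Agent.N218.RQ.Fac21n
import Pool.Agent.N972.GC.Defs

/-!
# Level `21`, the classes `R21`, `R21r`: parity of the crossing number and the rank form of the
# conjecture
-/

set_option autoImplicit false

namespace Pool.Agent.N855.RQp

open Finset
open Pool.Agent.N969.RQ
open Pool.Agent.N877.P21G (Ai As Fn I7 QQ P7 K0 S_R7 S_R7r S_JY)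
open Pool.Agent.N972.GC (CY C21)
open Pool.Agent.N974.RQ (mA)

/-- the constants of the class `Ai` and their parity -/
def S_KYI : Prop := ∀ A, Ai A → ∃ (c : ℚ) (y : ℤ), (∀ m : ℕ, Nat.Coprime A m → K0 m →
  (P7 A (A * m) : ℚ) = c * (N877.P21.cc m : ℚ) ^ 2) ∧
  9 * c = 4 ^ A.primeFactors.card * (y : ℚ) ^ 2 ∧ (Odd y ↔ CY (-7) A)

open Classical in
/-- the identity of the criteria, `7` split -/
def S_ID21 : Prop := ∀ D, R21 D → ∃ p : ℕ, p.Prime ∧ p ∣ D ∧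
  (Odd ((ud D).filter fun d => p ∣ d ∧ d ≠ D ∧ (Ep7 (CY (-7)) D d ∨ En7 D d)).card ↔ C21 D)

open Classical in
/-- the identity of the criteria, `7 ∣ D` -/
def S_ID21r : Prop := ∀ D, R21r D → ∃ p : ℕ, p.Prime ∧ p ∣ D ∧
  (Odd ((ud D).filter fun d => p ∣ d ∧ d ≠ D ∧ En7 D d).card ↔ C21 D)

theorem Val.ne_zero {k : ℕ} {x : ℤ} {e : Prop} (h : Val k x e) (he : e) : x ≠ 0 := by
  obtain ⟨z, rfl, h1⟩ := h
  have h2 : z ≠ 0 := by
    rintro rfl
    exact absurd (h1.2 he) (by decide)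
  exact mul_ne_zero (by positivity) h2

/-- **the parity of the crossing number, `7` split** -/
theorem y21 (hB : S_BILJ21) (hBn : S_BILJ21n) (hR7 : S_R7) (hI : S_KYI) (hid : S_ID21)
    {D : ℕ} (hD : R21 D) : Val (D.primeFactors.card - 1) (J 21 o3 D 1 1 3) (C21 D) := by
  obtain ⟨p, hp, hpD, h⟩ := hid D hD
  refine (par21 hR7 (Pool.Agent.N218.RQ.F21.s_FAC21 hB) (CY (-7))
    (hJ21 (Pool.Agent.N218.RQ.F21n.s_FAC21n hBn) (CY (-7)) hI) D hD p hp hpD).congr ?_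
  rw [← h]

theorem jy21 (hB : S_BILJ21) (hBn : S_BILJ21n) (hR7 : S_R7) (hI : S_KYI) : S_JY := by
  intro A hA
  have hR : R21 A := hA
  have h1 : A ≠ 1 := by have := hR.1.1; omega
  obtain ⟨y, h2, -⟩ := par21 hR7 (Pool.Agent.N218.RQ.F21.s_FAC21 hB) (CY (-7))
    (hJ21 (Pool.Agent.N218.RQ.F21n.s_FAC21n hBn) (CY (-7)) hI) A hR A.minFac
    (Nat.minFac_prime h1) (Nat.minFac_dvd A)
  refine ⟨y, ?_⟩
  have hw := w_pos hR.1.1
  rw [h2]
  conv_rhs => rw [show A.primeFactors.card = A.primeFactors.card - 1 + 1 by omega, pow_succ]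
  ring

/-- **the parity of the crossing number, `7 ∣ D`** -/
theorem y21r (hB : S_BILJ21) (hBn : S_BILJ21n) (hR7 : S_R7) (hR7r : S_R7r) (hI : S_KYI)
    (hid : S_ID21r) {D : ℕ} (hD : R21r D) :
    Val (D.primeFactors.card - 2) (J 21 o3 D 1 1 3) (C21 D) := by
  obtain ⟨p, hp, hpD, h⟩ := hid D hD
  refine (par21r hR7 hR7r (Pool.Agent.N218.RQ.F21.s_FAC21 hB) (fun D hD => ?_) D hD p hp hpD).congr ?_
  · have h1 : D ≠ 1 := by have := hD.1.1; omega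
    exact (par21 hR7 (Pool.Agent.N218.RQ.F21.s_FAC21 hB) (CY (-7))
      (hJ21 (Pool.Agent.N218.RQ.F21n.s_FAC21n hBn) (CY (-7)) hI) D hD D.minFac
      (Nat.minFac_prime h1) (Nat.minFac_dvd D)).dvd
  · rw [← h]

/-- **the rank form of the conjecture, `7` split** -/
theorem rank_R21 (hB : S_BILJ21) (hBn : S_BILJ21n) (hR7 : S_R7) (hI : S_KYI) (hid : S_ID21)
    {A : ℕ} (hA : R21 A) (hC : C21 A) (hfin : Pool.Agent.N975.S21.FinPts (mA A : ℤ)) :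
    Pool.Agent.Y687.RankBSD (-5211 * (mA A : ℤ) ^ 2) (-31050 * (mA A : ℤ) ^ 3) :=
  Pool.Agent.N974.RQ.rank21 (Pool.Agent.N218.RQ.F21.s_NV21 hB) (Or.inl hA)
    ((y21 hB hBn hR7 hI hid hA).ne_zero hC) hfin

/-- **the rank form of the conjecture, `7 ∣ D`** -/
theorem rank_R21r (hB : S_BILJ21) (hBn : S_BILJ21n) (hR7 : S_R7) (hR7r : S_R7r) (hI : S_KYI)
    (hid : S_ID21r) {A : ℕ} (hA : R21r A) (hC : C21 A)
    (hfin : Pool.Agent.N975.S21.FinPts (mA A : ℤ)) :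
    Pool.Agent.Y687.RankBSD (-5211 * (mA A : ℤ) ^ 2) (-31050 * (mA A : ℤ) ^ 3) :=
  Pool.Agent.N974.RQ.rank21 (Pool.Agent.N218.RQ.F21.s_NV21 hB) (Or.inr hA)
    ((y21r hB hBn hR7 hR7r hI hid hA).ne_zero hC) hfin

end Pool.Agent.N855.RQp
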