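import Pool.Agent.N855.RQ.Fin15
import Pool.Agent.N972.GC.Lv15

/-!
# The identity of the criteria for the classes `R15`, `R15r`
-/

set_option autoImplicit false

namespace Pool.Agent.N855.RQp

open Finset
open Pool.Agent.N855.P17
open Pool.Agent.N972.F2
open Pool.Agent.N972.GC
open Pool.Agent.N972.P17 (ls al LL)
open Pool.Agent.N969.P15 (Qc Qe Ev)
open Pool.Agent.N969.RQ (Fd ud R15 R15r Un)

/-- positive discriminants as products of prime discriminants -/
theorem Fd_NT {D : ℕ} (h : Fd D) : NT (3 * D) D.primeFactors = D ∧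
    ∑ p ∈ D.primeFactors, al (3 * D) p = 0 := by
  have hp : ∀ p ∈ D.primeFactors, p.Prime := fun p hp => Nat.prime_of_mem_primeFactors hp
  obtain ⟨h0, ⟨h1, h2⟩ | ⟨m, rfl, hsq, hm⟩⟩ := h
  · have h2' : 2 ∉ D.primeFactors := by
      intro h
      have := Nat.dvd_of_mem_primeFactors h
      omega
    have hN : NN D.primeFactors = D := Nat.prod_primeFactors_of_squarefree h1
    refine ⟨by rw [NT_out h2', hN], ?_⟩
    rw [← mod1_iff (3 * D) hp h2', hN]
    exact h2
  · have key : ∀ κ u : ℕ, (κ = 4 ∨ κ = 8) → u % 2 = 1 → Squarefree u → 4 * m = κ * u →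
        kp (3 * (4 * m)) = κ → al (3 * (4 * m)) 2 + ∑ p ∈ u.primeFactors, al (3 * (4 * m)) p = 0 →
        NT (3 * (4 * m)) (4 * m).primeFactors = 4 * m ∧
          ∑ p ∈ (4 * m).primeFactors, al (3 * (4 * m)) p = 0 := by
      intro κ u hκ hu husq he hkp hal
      have hκ2 : κ.primeFactors = {2} := by
        rcases hκ with rfl | rfl
        · rw [show (4 : ℕ) = 2 ^ 2 from rfl, Nat.primeFactors_prime_pow (by norm_num) Nat.prime_two]
        · rw [show (8 : ℕ) = 2 ^ 3 from rfl, Nat.primeFactors_prime_pow (by norm_num) Nat.prime_two]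
      have hpf : (4 * m).primeFactors = insert 2 u.primeFactors := by
        rw [he, Nat.primeFactors_mul (by omega) husq.ne_zero, hκ2]
        rfl
      have h2u : 2 ∉ u.primeFactors := by
        intro h
        have := Nat.dvd_of_mem_primeFactors h
        omega
      have h2 : 2 ∈ (4 * m).primeFactors := by
        rw [hpf]
        exact mem_insert_self _ _
      refine ⟨?_, ?_⟩
      · have hNu : NN u.primeFactors = u := Nat.prod_primeFactors_of_squarefree husq
        rw [NT_in h2, hkp, hpf, erase_insert h2u, hNu, he]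
      · rw [hpf, sum_insert h2u]
        exact hal
    have hst : ∀ v : ℤ, Pool.Agent.N972.P17.star (3 * (4 * m)) 2 = v →
        kp (3 * (4 * m)) = v.natAbs ∧ al (3 * (4 * m)) 2 = if v < 0 then 1 else 0 := by
      intro v hv
      unfold kp al
      rw [hv]
      exact ⟨rfl, rfl⟩
    have hsum : ∀ u : ℕ, Squarefree u → u % 2 = 1 →
        (u % 4 = 1 ∧ ∑ p ∈ u.primeFactors, al (3 * (4 * m)) p = 0) ∨
        (u % 4 = 3 ∧ ∑ p ∈ u.primeFactors, al (3 * (4 * m)) p = 1) := by
      intro u hu hu2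
      have h2u : 2 ∉ u.primeFactors := by
        intro h
        have := Nat.dvd_of_mem_primeFactors h
        omega
      have h1 := par_mod (3 * (4 * m)) (T := u.primeFactors)
        (fun p hp => Nat.prime_of_mem_primeFactors hp) h2u
      have hNu : NN u.primeFactors = u := Nat.prod_primeFactors_of_squarefree hu
      rwa [hNu] at h1
    rcases hm with hm | hm
    · obtain ⟨u, rfl⟩ : 2 ∣ m := by omega
      have husq : Squarefree u := Squarefree.squarefree_of_dvd (Dvd.intro_left 2 rfl) hsq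
      rcases hsum u husq (by omega) with ⟨h7, h8⟩ | ⟨h7, h8⟩
      · have h4 : Pool.Agent.N972.P17.star (3 * (4 * (2 * u))) 2 = 8 := by
          unfold Pool.Agent.N972.P17.star
          rw [if_pos rfl, if_neg (by omega), if_neg (by omega)]
        obtain ⟨h5, h6⟩ := hst _ h4
        refine key 8 u (Or.inr rfl) (by omega) husq (by ring) h5 ?_
        rw [h6, h8]; rfl
      · have h4 : Pool.Agent.N972.P17.star (3 * (4 * (2 * u))) 2 = -8 := by
          unfold Pool.Agent.N972.P17.star
          rw [if_pos rfl, if_neg (by omega), if_pos (by omega)]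
        obtain ⟨h5, h6⟩ := hst _ h4
        refine key 8 u (Or.inr rfl) (by omega) husq (by ring) h5 ?_
        rw [h6, h8]; rfl
    · have h4 : Pool.Agent.N972.P17.star (3 * (4 * m)) 2 = -4 := by
        unfold Pool.Agent.N972.P17.star
        rw [if_pos rfl, if_pos (by omega)]
      obtain ⟨h5, h6⟩ := hst _ h4
      refine key 4 m (Or.inl rfl) (by omega) hsq rfl h5 ?_
      rcases hsum m hsq (by omega) with ⟨h7, _⟩ | ⟨_, h7⟩
      · omega
      · rw [h6, h7]; rfl

/-- the sign of the discriminant of one of two complementary parts -/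
theorem al_of_Fn (n : ℕ) {P A : Finset ℕ} (hP : ∀ p ∈ P, p.Prime) (hA : A ⊆ P)
    (ha : ∑ p ∈ P, al n p = 0) (h1 : Fn (NT n A)) (h2 : Fn (NT n (P \ A))) :
    ∑ p ∈ A, al n p = 1 := by
  have hAp : ∀ p ∈ A, p.Prime := fun p hp => hP p (hA hp)
  have hBp : ∀ p ∈ P \ A, p.Prime := fun p hp => hP p (mem_sdiff.1 hp).1
  have hodd : ∀ T : Finset ℕ, (∀ p ∈ T, p.Prime) → 2 ∉ T → Fn (NT n T) → ∑ p ∈ T, al n p = 1 := by
    intro T hT h2T h
    rcases h with ⟨-, h⟩ | ⟨m, hm, -⟩
    · rw [NT_out h2T, mod3_iff n hT h2T] at h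
      exact h
    · exfalso
      exact h2T ((two_dvd_NT n hT).1 ⟨2 * m, by rw [hm]; ring⟩)
  by_cases h2A : 2 ∈ A
  · have h3 := hodd _ hBp (fun h => (mem_sdiff.1 h).2 h2A) h2
    rw [par_sdiff hA, ha, zero_add] at h3
    exact h3
  · exact hodd _ hAp h2A h1

theorem NT_four (n : ℕ) {T : Finset ℕ} (hT : ∀ p ∈ T, p.Prime) (h : NT n T = 4) :
    T = {2} ∧ Pool.Agent.N972.P17.star n 2 = -4 := by
  have h1 : T = {2} := by
    rw [← NT_pf (n0 := n) hT, h, show (4 : ℕ) = 2 ^ 2 from rfl,
      Nat.primeFactors_prime_pow (by norm_num) Nat.prime_two]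
  refine ⟨h1, ?_⟩
  rw [h1, NT_in (mem_singleton_self 2)] at h
  have h2 : NN (({2} : Finset ℕ).erase 2) = 1 := by
    unfold NN
    simp
  rw [h2, mul_one] at h
  unfold kp at h
  rcases star2 n with ⟨h3, -, -⟩ | ⟨h3, -, -⟩ | ⟨h3, -, -⟩
  · exact h3
  · rw [h3] at h; norm_num at h
  · rw [h3] at h; norm_num at h

theorem QQ_eq (n : ℕ) : Pool.Agent.N877.P21G.QQ n ↔ QQ n := Iff.rfl

theorem Fn_eq (n : ℕ) : Pool.Agent.N877.P21G.Fn n ↔ Fn n := Iff.rfl

theorem ind_and (p q : Prop) : ind p * ind q = ind (p ∧ q) := by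
  by_cases hp : p
  · by_cases hq : q
    · rw [ind_pos hp, ind_pos hq, ind_pos (show p ∧ q from ⟨hp, hq⟩), one_mul]
    · rw [ind_neg hq, mul_zero, ind_neg fun h => hq h.2]
  · rw [ind_neg hp, zero_mul, ind_neg fun h => hp h.1]

/-- the functional of `5` on a set -/
theorem sm5 (n : ℕ) {T : Finset ℕ} (hT : ∀ p ∈ T, p.Prime) (h5 : 5 ∉ T) :
    ∑ q ∈ T, ls n q 5 = sm (rh n 5) T := by
  rw [sm_rh n hT Nat.prime_five (by norm_num) h5 (kr_five n), al_five, zero_mul, add_zero]

/-- **the term of a pair of negative discriminants** -/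
theorem term5 {D n : ℕ} {P A : Finset ℕ} (hP : ∀ p ∈ P, p.Prime) (h5 : 5 ∉ P) (hN : NT n P = D)
    (ha : ∑ p ∈ P, al n p = 0) (hρ : sm (rh n 5) P = 0) (hA : A ⊆ P) (hA4 : NT n A ≠ 4)
    (hB4 : NT n (P \ A) ≠ 4) :
    ind (En5 D (NT n A)) = (sm (rh n 5) A * T1 (lp n) (ap n) (kq n) A) *
      (sm (rh n 5) (P \ A) * T1 (lp n) (ap n) (kq n) (P \ A)) := by
  have hAp : ∀ p ∈ A, p.Prime := fun p hp => hP p (hA hp)
  have hBp : ∀ p ∈ P \ A, p.Prime := fun p hp => hP p (mem_sdiff.1 hp).1
  have hq : D / NT n A = NT n (P \ A) := by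
    have := NT_quot n hP hA
    rwa [hN] at this
  have h5A : 5 ∉ A := fun h => h5 (hA h)
  have h5B : 5 ∉ P \ A := fun h => h5 (mem_sdiff.1 h).1
  have hE : En5 D (NT n A) ↔ (Fn (NT n A) ∧ Fn (NT n (P \ A)) ∧
      (NT n A % 5 = 2 ∨ NT n A % 5 = 3) ∧ (NT n (P \ A) % 5 = 2 ∨ NT n (P \ A) % 5 = 3) ∧
        QQ (NT n A) ∧ QQ (NT n (P \ A))) := by
    unfold En5
    rw [hq]
    constructor
    · rintro (h | ⟨h, -⟩ | ⟨h, -⟩)
      · exact h
      · exact absurd h hA4
      · exact absurd h hB4
    · exact Or.inl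
  have hsB : sm (ap n) (P \ A) = sm (ap n) A := by
    rw [sm_sdiff _ hA, sm_al n hP, ha, zero_add]
  rcases z01 (∑ p ∈ A, al n p) with h0 | h0
  · have hs : sm (ap n) A = 0 := by rw [sm_al n hAp, h0]
    rw [T1_even hs, mul_zero, zero_mul]
    refine ind_neg fun h => ?_
    have h1 := hE.1 h
    have h2 := al_of_Fn n hP hA ha h1.1 h1.2.1
    rw [h0] at h2
    exact zero_ne_one h2
  · have hs : sm (ap n) A = 1 := by rw [sm_al n hAp, h0]
    have hs' : sm (ap n) (P \ A) = 1 := by rw [hsB, hs]
    have h0' : ∑ p ∈ P \ A, al n p = 1 := by rw [← sm_al n hBp, hs']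
    rw [T1_QQ n hAp hs hA4, T1_QQ n hBp hs' hB4]
    have m5 : ∀ T : Finset ℕ, (∀ p ∈ T, p.Prime) → 5 ∉ T → ∑ p ∈ T, al n p = 1 →
        sm (rh n 5) T = ind (NT n T % 5 = 2 ∨ NT n T % 5 = 3) := by
      intro T hT h5T h1
      have h2 := (typ_neg n hT Nat.prime_five (by norm_num) h5T h1).2
      rw [sm5 n hT h5T, (j5 _).2] at h2
      rw [ind01]
      split_ifs with h3
      · exact h2.1 (by omega)
      · rcases z01 (sm (rh n 5) T) with h4 | h4
        · exact h4
        · exact absurd (h2.2 h4) (by omega)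
    rw [m5 A hAp h5A h0, m5 (P \ A) hBp h5B h0', ind_and, ind_and, ind_and]
    refine ind_congr ?_
    rw [hE]
    have f1 : Fn (NT n A) := NT_Fn n hAp h0
    have f2 : Fn (NT n (P \ A)) := NT_Fn n hBp h0'
    tauto

/-- **the identity of the criteria for the classes `R15`, `R15r`** -/
theorem t_ID15 : S_ID15 := by
  intro D hR
  have hFd : Fd D := by
    rcases hR with h | h
    · exact h.1
    · exact h.1
  have h5D : jacobiSym D 5 = 1 := by
    rcases hR with h | h
    · exact h.2.2
    · exact h.2.2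
  obtain ⟨hN, ha⟩ := Fd_NT hFd
  set n := 3 * D with hn
  set P := D.primeFactors with hPd
  have hD0 : D ≠ 0 := by have := hFd.1; omega
  have hP : ∀ p ∈ P, p.Prime := fun p hp => Nat.prime_of_mem_primeFactors hp
  have h5 : 5 ∉ P := fun h => by
    have h1 := Nat.dvd_of_mem_primeFactors h
    have h2 := (j5 (D : ℤ)).1.1 h5D
    omega
  have hneP : P.Nonempty := by
    rw [nonempty_iff_ne_empty]
    intro h
    have := (NT_one n hP).2 h
    rw [hN] at this
    have := hFd.1
    omega
  have haP : sm (ap n) P = 0 := by rw [sm_al n hP, ha]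
  have hρ : sm (rh n 5) P = 0 := by
    rw [← sm5 n hP h5]
    refine (typ_pos n hP Nat.prime_five (by norm_num) h5 ha).1.1 ?_
    rw [hN]
    exact h5D
  have hud : ∀ f : ℕ → ZMod 2, ∑ d ∈ ud D, f d = ∑ A ∈ P.powerset, f (NT n A) := by
    intro f
    have := ud_sum n hP f
    rwa [hN] at this
  have hCY : CY 5 D ↔ Yd (lp n) (kr 5) P = 1 := by
    have := CY_Yd n hP hneP haP 5
    rwa [hN] at this
  classical
  have hcard : ∀ c : ℕ, c.Prime → ∀ x : ZMod 2,
      ∑ A ∈ P.powerset, ind (c ∣ NT n A ∧ NT n A ≠ D ∧ En5 D (NT n A)) = x →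
      (Odd ((ud D).filter fun d => c ∣ d ∧ d ≠ D ∧ En5 D d).card ↔ x = 1) := by
    intro c _ x hx
    rw [← hud fun d => ind (c ∣ d ∧ d ≠ D ∧ En5 D d)] at hx
    refine odd_nat ?_
    rw [card_ind, hx]
    rcases z01 x with h | h
    · rw [h, ind_neg zero_ne_one]
    · rw [h, ind_pos rfl]
  have hNTD : ∀ A ⊆ P, NT n A = D → A = P := by
    intro A hA h
    rw [hPd, ← h, NT_pf fun p hp => hP p (hA hp)]
  by_cases hv : 2 ∈ P ∧ Pool.Agent.N972.P17.star n 2 = -4
  · -- the vertex of `-4`
    obtain ⟨h2P, h4⟩ := hv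
    refine ⟨2, Nat.prime_two, Nat.dvd_of_mem_primeFactors h2P, ?_⟩
    have hkr2 : kr 5 2 = 1 := by
      unfold kr
      rw [if_pos rfl, if_neg (by norm_num)]
    have hkf : kr 5 = ad (rh n 5) 2 := funext (kr_ad n h4 hkr2)
    have hid := idA1 (hk n) (t := 2) (by rw [ap_of Nat.prime_two, al_star n h4])
      (fun i hi => kq_odd hi) (by
        intro i hi
        unfold Pool.Agent.N972.GC.lp Pool.Agent.N972.GC.ap
        by_cases hip : i.Prime
        · rw [if_pos ⟨hip, Nat.prime_two⟩, if_pos hip]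
          exact ls_m4 h4 hip hi
        · rw [if_neg fun h => hip h.1, if_neg hip]) (ρ := rh n 5) haP h2P
    rw [hCY, hkf, hid]
    refine hcard 2 Nat.prime_two _ ?_
    rw [idA0 (hk n) (fun p _ hp => rh_sup n 5 p hp) haP hρ h2P]
    have h2s : ({2} : Finset ℕ) ∈ P.powerset := mem_powerset.2 (singleton_subset_iff.2 h2P)
    have hterm : ∀ A ∈ P.powerset, ind (2 ∣ NT n A ∧ NT n A ≠ D ∧ En5 D (NT n A)) =
        (if 2 ∈ A then (sm (rh n 5) A * T1 (lp n) (ap n) (kq n) A) *
          (sm (rh n 5) (P \ A) * T1 (lp n) (ap n) (kq n) (P \ A)) else 0) +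
        if A = {2} then T1 (lp n) (ap n) (kq n) (P.erase 2) else 0 := by
      intro A hA
      rw [mem_powerset] at hA
      have hAp : ∀ p ∈ A, p.Prime := fun p hp => hP p (hA hp)
      have hBp : ∀ p ∈ P \ A, p.Prime := fun p hp => hP p (mem_sdiff.1 hp).1
      by_cases h2A : 2 ∈ A
      · rw [if_pos h2A]
        have h2d : 2 ∣ NT n A := (two_dvd_NT n hAp).2 h2A
        by_cases hA2 : A = {2}
        · rw [if_pos hA2]
          have hr2 : rh n 5 2 = 0 := if_pos ⟨rfl, h4⟩
          have hsA : sm (rh n 5) A = 0 := by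
            rw [hA2]
            unfold sm
            rw [sum_singleton, hr2]
          rw [hsA, zero_mul, zero_mul, zero_add]
          have hA4 : NT n A = 4 := by
            rw [hA2, NT_in (mem_singleton_self 2)]
            unfold kp NN
            rw [h4]
            simp
          have hPe : P \ A = P.erase 2 := by rw [hA2, sdiff_singleton_eq_erase]
          have hq : D / 4 = NT n (P.erase 2) := by
            have := NT_quot n hP hA
            rwa [hN, hA4, hPe] at this
          have hU4 : Un D 4 := by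
            refine un_of ?_
            have h6 := unit_NT
            have h7 : NT n A ∈ ud D := by
              unfold Pool.Agent.N969.RQ.ud
              have hm := NT_mul n hA
              rw [hN] at hm
              have hd : D / NT n A = NT n (P \ A) := by
                rw [← hm]
                exact Nat.mul_div_cancel _ (NT_pos hAp)
              rw [mem_filter, Nat.mem_divisors, hd]
              refine ⟨⟨⟨NT n (P \ A), by rw [mul_comm, hm]⟩, hD0⟩, ?_⟩
              rw [← Nat.disjoint_primeFactors (NT_pos hAp).ne' (NT_pos hBp).ne', NT_pf hAp,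
                NT_pf hBp]
              exact disjoint_sdiff
            rwa [hA4] at h7
          have haE : sm (ap n) (P.erase 2) = 1 := by
            have := sm_sdiff (ap n) hA
            rw [hPe, haP, hA2] at this
            rw [this]
            unfold sm
            rw [sum_singleton, ap_of Nat.prime_two, al_star n h4, zero_add]
          have hEp : ∀ p ∈ P.erase 2, p.Prime := fun p hp => hP p (mem_of_mem_erase hp)
          have hE4 : NT n (P.erase 2) ≠ 4 := fun h => by
            have := (NT_four n hEp h).1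
            exact notMem_erase 2 P (this ▸ mem_singleton_self 2)
          rw [T1_QQ n hEp haE hE4, hA4]
          refine ind_congr ?_
          have h8 := En5_four hU4
          rw [hq] at h8
          constructor
          · rintro ⟨-, -, h9⟩
            exact h8.1 h9
          · intro h9
            refine ⟨by norm_num, ?_, h8.2 h9⟩
            intro h10
            rw [← h10] at hFd
            exact fd4 hFd
        · rw [if_neg hA2, add_zero]
          have hA4 : NT n A ≠ 4 := fun h => hA2 (NT_four n hAp h).1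
          have hB4 : NT n (P \ A) ≠ 4 := fun h => by
            have := (NT_four n hBp h).1
            have h9 : 2 ∈ P \ A := this ▸ mem_singleton_self 2
            exact (mem_sdiff.1 h9).2 h2A
          rw [← term5 hP h5 hN ha hρ hA hA4 hB4]
          by_cases hAP : NT n A = D
          · rw [ind_neg fun h => h.2.1 hAP]
            have h9 := hNTD A hA hAP
            have h10 := term5 hP h5 hN ha hρ hA hA4 hB4
            have h11 : P \ A = ∅ := by rw [h9, Finset.sdiff_self]
            rw [h11, sm_empty, zero_mul, mul_zero] at h10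
            exact h10.symm
          · exact ind_congr ⟨fun h => h.2.2, fun h => ⟨h2d, hAP, h⟩⟩
      · have h2d : ¬ 2 ∣ NT n A := fun h => h2A ((two_dvd_NT n hAp).1 h)
        rw [if_neg h2A, if_neg, add_zero, ind_neg fun h => h2d h.1]
        rintro rfl
        exact h2A (mem_singleton_self 2)
    rw [sum_congr rfl hterm, sum_add_distrib, sum_ite_eq', if_pos h2s]
  · -- no vertex of `-4`
    obtain ⟨c, hc⟩ := hneP
    refine ⟨c, hP c hc, Nat.dvd_of_mem_primeFactors hc, ?_⟩
    have hkrh := kr_rh n (s := 5) (T := P) hv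
    rw [hCY, Yd_congr (lp n) hkrh]
    refine hcard c (hP c hc) _ ?_
    rw [idA0 (hk n) (fun p _ hp => rh_sup n 5 p hp) haP hρ hc]
    refine sum_congr rfl fun A hA => ?_
    rw [mem_powerset] at hA
    have hAp : ∀ p ∈ A, p.Prime := fun p hp => hP p (hA hp)
    have hBp : ∀ p ∈ P \ A, p.Prime := fun p hp => hP p (mem_sdiff.1 hp).1
    have hno : ∀ T ⊆ P, (∀ p ∈ T, p.Prime) → NT n T ≠ 4 := by
      intro T hT hTp h
      obtain ⟨h1, h2⟩ := NT_four n hTp h
      exact hv ⟨hT (h1 ▸ mem_singleton_self 2), h2⟩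
    by_cases hcA : c ∈ A
    · rw [if_pos hcA, ← term5 hP h5 hN ha hρ hA (hno A hA hAp) (hno _ sdiff_subset hBp)]
      have hcd : c ∣ NT n A := (dvd_NT n hAp (hP c hc)).2 hcA
      by_cases hAP : NT n A = D
      · rw [ind_neg fun h => h.2.1 hAP]
        have h9 := hNTD A hA hAP
        have h10 := term5 hP h5 hN ha hρ hA (hno A hA hAp) (hno _ sdiff_subset hBp)
        have h11 : P \ A = ∅ := by rw [h9, Finset.sdiff_self]
        rw [h11, sm_empty, zero_mul, mul_zero] at h10
        exact h10.symm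
      · exact ind_congr ⟨fun h => h.2.2, fun h => ⟨hcd, hAP, h⟩⟩
    · have hcd : ¬ c ∣ NT n A := fun h => hcA ((dvd_NT n hAp (hP c hc)).1 h)
      rw [if_neg hcA, ind_neg fun h => hcd h.1]

end Pool.Agent.N855.RQp
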