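import Pool.Agent.N855.RQ.Ud

/-!
# INT: integrality of the sums of the crossing numbers over the genus characters
-/

set_option autoImplicit false

namespace Pool.Agent.N855.RQ

open Finset
open Pool.Agent.N969.RQ
open Pool.Agent.N969.P17G (gen starP)
open Pool.Agent.N969.P15 (c2)

/-- the forms of the crossing number -/
def FF (N D : ℕ) (x M : ℤ) : Set (ℤ × ℤ × ℤ) := {q | q.2.1 ^ 2 - 4 * q.1 * q.2.2 = (D : ℤ) ∧
  (N : ℤ) ∣ q.1 ∧ 0 < q.1 ∧ q.1 * x ^ 2 + q.2.1 * x * M + q.2.2 * M ^ 2 < 0}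

theorem FF_finite (N D : ℕ) (x : ℤ) {M : ℤ} (hM : 0 < M) : (FF N D x M).Finite := by
  set K : ℤ := D * M ^ 2 with hK
  set B : ℤ := K + 2 * K * |x| with hB
  refine Set.Finite.subset (Set.Finite.image (fun ab : ℤ × ℤ => (ab.1, ab.2,
    (ab.2 ^ 2 - D) / (4 * ab.1))) (Finset.finite_toSet (Icc (1 : ℤ) K ×ˢ Icc (-B) B))) ?_
  rintro ⟨a, b, c⟩ ⟨h1, -, h3, h4⟩
  simp only at h1 h3 h4
  have e : 4 * a * (a * x ^ 2 + b * x * M + c * M ^ 2) = (2 * a * x + b * M) ^ 2 - K := by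
    rw [hK, ← h1]
    ring
  have h5 : 4 * a * (a * x ^ 2 + b * x * M + c * M ^ 2) ≤ 4 * a * (-1) :=
    mul_le_mul_of_nonneg_left (by omega) (by omega)
  have h6 : (2 * a * x + b * M) ^ 2 + 4 * a ≤ K := by linarith
  have h7 : 0 ≤ (2 * a * x + b * M) ^ 2 := sq_nonneg _
  have haK : a ≤ K := by linarith
  have hK0 : 0 < K := by linarith
  have h8 : |2 * a * x + b * M| ≤ K := by
    have h9 : |2 * a * x + b * M| ^ 2 ≤ K := by
      rw [sq_abs]
      linarith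
    by_contra hcon
    push Not at hcon
    nlinarith [abs_nonneg (2 * a * x + b * M)]
  have h9 : |b| ≤ B := by
    have h10 : |b| ≤ |b * M| := by
      rw [abs_mul, abs_of_pos hM]
      exact le_mul_of_one_le_right (abs_nonneg _) (by omega)
    have h11 : |b * M| ≤ |2 * a * x + b * M| + |2 * a * x| := by
      have := abs_sub (2 * a * x + b * M) (2 * a * x)
      rwa [add_sub_cancel_left] at this
    have h12 : |2 * a * x| ≤ 2 * K * |x| := by
      rw [abs_mul, abs_of_pos (by linarith : 0 < 2 * a)]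
      exact mul_le_mul_of_nonneg_right (by linarith) (abs_nonneg _)
    linarith
  refine ⟨(a, b), ?_, ?_⟩
  · rw [coe_product, Set.mem_prod, mem_coe, mem_coe, mem_Icc, mem_Icc]
    exact ⟨⟨h3, haK⟩, abs_le.1 h9⟩
  · simp only
    congr 2
    have e2 : b ^ 2 - (D : ℤ) = 4 * a * c := by linarith
    rw [e2]
    exact Int.mul_ediv_cancel_left _ (by omega)

/-- the forms as a finite set -/
noncomputable def FS (N D : ℕ) (x M : ℤ) (hM : 0 < M) : Finset (ℤ × ℤ × ℤ) :=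
  (FF_finite N D x hM).toFinset

theorem mem_FS {N D : ℕ} {x M : ℤ} {hM : 0 < M} {q : ℤ × ℤ × ℤ} :
    q ∈ FS N D x M hM ↔ q ∈ FF N D x M := Set.Finite.mem_toFinset _

theorem J_eq (N : ℕ) (w : ℤ → ℤ) (D d : ℕ) (x M : ℤ) (hM : 0 < M) :
    J N w D d x M = ∑ q ∈ FS N D x M hM, w q.2.1 * ps D d q := by
  classical
  unfold J
  rw [finsum_eq_sum_of_support_subset (s := FS N D x M hM)]
  · refine sum_congr rfl fun q hq => ?_
    have h : q ∈ FF N D x M := mem_FS.1 hq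
    exact if_pos h
  · intro q hq
    rw [mem_coe, mem_FS]
    by_contra h
    exact hq (if_neg h)

theorem sgd_pm {D d : ℕ} : sgd D d = 1 ∨ sgd D d = -1 := by
  unfold sgd
  have h : ∀ s : Finset ℕ, (∀ p ∈ s, p ≠ 0) → (∏ p ∈ s, Int.sign (starP D p) = 1 ∨
      ∏ p ∈ s, Int.sign (starP D p) = -1) := by
    intro s
    induction s using Finset.induction_on with
    | empty => intro _; left; rfl
    | insert p s hp ih =>
      intro h
      rw [prod_insert hp]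
      have h1 := @sg_pm D p (h p (mem_insert_self _ _))
      have h2 := ih fun q hq => h q (mem_insert_of_mem hq)
      rcases h1 with h1 | h1 <;> rcases h2 with h2 | h2 <;> rw [h1, h2] <;> simp
  exact h _ fun p hp => (Nat.prime_of_mem_primeFactors hp).ne_zero

/-- twice the sum with the case distinction -/
theorem twice {D : ℕ} {x y : ℕ → ℤ} (g : ℕ → ℤ) (a b : ℤ)
    (hx : ∀ d, x d = a * g d) (hy : ∀ d, y d = b * g d) :
    2 * ∑ d ∈ ud D, (if sgd D d = 1 then x d else y d) =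
      (a + b) * (∑ d ∈ ud D, g d) + (a - b) * ∑ d ∈ ud D, sgd D d * g d := by
  rw [mul_sum, mul_sum, mul_sum, ← sum_add_distrib]
  refine sum_congr rfl fun d _ => ?_
  rw [hx, hy]
  rcases @sgd_pm D d with h | h
  · rw [if_pos h, h]
    ring
  · rw [if_neg (by rw [h]; norm_num), h]
    ring

theorem pm_o3 {b : ℤ} (h : b % 3 ≠ 0) : o3 b = 1 ∨ o3 b = -1 := by
  unfold o3
  apply jacobiSym.eq_one_or_neg_one
  rw [Int.gcd_comm]
  refine (Nat.Prime.coprime_iff_not_dvd (by norm_num)).2 fun h1 => h ?_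
  exact Int.emod_eq_zero_of_dvd (by exact_mod_cast Int.natCast_dvd.2 h1)

theorem pm_o7 {b : ℤ} (h : b % 7 ≠ 0) : o7 b = 1 ∨ o7 b = -1 := by
  unfold o7
  apply jacobiSym.eq_one_or_neg_one
  rw [Int.gcd_comm]
  refine (Nat.Prime.coprime_iff_not_dvd (by norm_num)).2 fun h1 => h ?_
  exact Int.emod_eq_zero_of_dvd (by exact_mod_cast Int.natCast_dvd.2 h1)

theorem pm_o5 {b : ℤ} (h : b % 5 ≠ 0) : o5 b = 1 ∨ o5 b = -1 := by
  unfold o5
  rw [if_neg h]
  split_ifs <;> simp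

/-- `b` is prime to a prime of the level which does not divide `D` -/
theorem b_ne {N D p : ℕ} (hpN : p ∣ N) (hpD : ¬ p ∣ D) {q : ℤ × ℤ × ℤ}
    (h : q.2.1 ^ 2 - 4 * q.1 * q.2.2 = (D : ℤ) ∧ (N : ℤ) ∣ q.1) : q.2.1 % p ≠ 0 := by
  intro h1
  apply hpD
  have h2 : (p : ℤ) ∣ q.2.1 := Int.dvd_of_emod_eq_zero h1
  have h3 : (p : ℤ) ∣ q.1 := dvd_trans (by exact_mod_cast hpN) h.2
  have h4 : (p : ℤ) ∣ (D : ℤ) := by
    rw [← h.1]
    exact dvd_sub (dvd_pow h2 two_ne_zero) (Dvd.dvd.mul_right (Dvd.dvd.mul_left h3 4) _)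
  exact_mod_cast h4

/-- the contribution of one form with two orientations -/
theorem two_or {D : ℕ} (hD : Fd D) {q : ℤ × ℤ × ℤ} (hq : q.2.1 ^ 2 - 4 * q.1 * q.2.2 = (D : ℤ))
    {u v : ℤ} (hu : u = 1 ∨ u = -1) (hv : v = 1 ∨ v = -1) :
    (2 : ℤ) ^ (D.primeFactors.card + 1) ∣ ∑ d ∈ ud D, (if sgd D d = 1 then (u + v) * ps D d q
      else (1 + u * v) * ps D d q) := by
  obtain ⟨⟨P, hP⟩, ⟨Q, hQ⟩⟩ := dvd_one hD hq
  have h := twice (D := D) (x := fun d => (u + v) * ps D d q) (y := fun d => (1 + u * v) * ps D d q)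
    (fun d => ps D d q) (u + v) (1 + u * v) (fun _ => rfl) (fun _ => rfl)
  rw [hP, hQ] at h
  have h2 : (2 : ℤ) * 2 ^ (D.primeFactors.card + 1) ∣ 2 * ∑ d ∈ ud D,
      (if sgd D d = 1 then (u + v) * ps D d q else (1 + u * v) * ps D d q) := by
    rw [h, pow_succ]
    rcases hu with rfl | rfl <;> rcases hv with rfl | rfl
    · exact ⟨P, by ring⟩
    · exact ⟨0, by ring⟩
    · exact ⟨0, by ring⟩
    · exact ⟨-Q, by ring⟩
  exact (mul_dvd_mul_iff_left (two_ne_zero' ℤ)).1 h2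

/-- the contribution of one form with one orientation -/
theorem one_or {D : ℕ} (hD : Fd D) {q : ℤ × ℤ × ℤ} (hq : q.2.1 ^ 2 - 4 * q.1 * q.2.2 = (D : ℤ))
    {u : ℤ} (hu : u = 1 ∨ u = -1) :
    (2 : ℤ) ^ D.primeFactors.card ∣ ∑ d ∈ ud D, (if sgd D d = 1 then u * ps D d q
      else 1 * ps D d q) := by
  obtain ⟨⟨P, hP⟩, ⟨Q, hQ⟩⟩ := dvd_one hD hq
  have h := twice (D := D) (x := fun d => u * ps D d q) (y := fun d => 1 * ps D d q)
    (fun d => ps D d q) u 1 (fun _ => rfl) (fun _ => rfl)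
  rw [hP, hQ] at h
  have h2 : (2 : ℤ) * 2 ^ D.primeFactors.card ∣ 2 * ∑ d ∈ ud D,
      (if sgd D d = 1 then u * ps D d q else 1 * ps D d q) := by
    rw [h]
    rcases hu with rfl | rfl
    · exact ⟨P, by ring⟩
    · exact ⟨-Q, by ring⟩
  exact (mul_dvd_mul_iff_left (two_ne_zero' ℤ)).1 h2

/-- twice the contribution of one form with the negative divisors only -/
theorem neg_or {D : ℕ} (hD : Fd D) {q : ℤ × ℤ × ℤ} (hq : q.2.1 ^ 2 - 4 * q.1 * q.2.2 = (D : ℤ)) :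
    (2 : ℤ) ^ D.primeFactors.card ∣ 2 * ∑ d ∈ ud D, (if sgd D d = 1 then 0
      else ps D d q) := by
  obtain ⟨⟨P, hP⟩, ⟨Q, hQ⟩⟩ := dvd_one hD hq
  have h := twice (D := D) (x := fun _ => 0) (y := fun d => ps D d q)
    (fun d => ps D d q) 0 1 (fun _ => (zero_mul _).symm) (fun _ => (one_mul _).symm)
  rw [hP, hQ] at h
  rw [h]
  exact ⟨P - Q, by ring⟩

/-- exchange of the sums -/
theorem exch {N D : ℕ} {x M : ℤ} (hM : 0 < M) (f g : ℤ → ℤ) :
    ∑ d ∈ ud D, (if sgd D d = 1 then J N f D d x M else J N g D d x M) =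
      ∑ q ∈ FS N D x M hM, ∑ d ∈ ud D, (if sgd D d = 1 then f q.2.1 * ps D d q
        else g q.2.1 * ps D d q) := by
  rw [sum_comm]
  refine sum_congr rfl fun d _ => ?_
  split_ifs
  · exact J_eq N f D d x M hM
  · exact J_eq N g D d x M hM

theorem J_add (N : ℕ) (f g : ℤ → ℤ) (D d : ℕ) (x : ℤ) {M : ℤ} (hM : 0 < M) :
    J N f D d x M + J N g D d x M = J N (fun b => f b + g b) D d x M := by
  rw [J_eq N f D d x M hM, J_eq N g D d x M hM, J_eq N _ D d x M hM, ← sum_add_distrib]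
  exact sum_congr rfl fun q _ => by ring

theorem t_INT21 : S_INT21 := by
  intro D hD
  have h3 : (0 : ℤ) < 3 := by norm_num
  have e : ∑ d ∈ ud D, (if sgd D d = 1 then J 21 o3 D d 1 3 + J 21 o7 D d 1 3
      else J 21 one D d 1 3 + J 21 (fun b => o3 b * o7 b) D d 1 3) =
      ∑ d ∈ ud D, (if sgd D d = 1 then J 21 (fun b => o3 b + o7 b) D d 1 3
        else J 21 (fun b => one b + o3 b * o7 b) D d 1 3) := by
    refine sum_congr rfl fun d _ => ?_
    split_ifs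
    · exact J_add _ _ _ _ _ _ h3
    · exact J_add _ _ _ _ _ _ h3
  rw [e, exch h3]
  refine dvd_sum fun q hq => ?_
  have hq' := mem_FS.1 hq
  refine two_or hD.1 hq'.1 (pm_o3 ?_) (pm_o7 ?_)
  · have h := b_ne (p := 3) (by norm_num) (by have := hD.2.1; omega) ⟨hq'.1, hq'.2.1⟩
    exact_mod_cast h
  · have h := b_ne (p := 7) (by norm_num) (fun h7 => ?_) ⟨hq'.1, hq'.2.1⟩
    · exact_mod_cast h
    · have h8 := hD.2.2
      obtain ⟨k, rfl⟩ := h7
      rw [(jacobiSym.eq_zero_iff_not_coprime).2] at h8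
      · norm_num at h8
      · rw [Int.gcd_natCast_natCast]
        norm_num

theorem t_INT21r : S_INT21r := by
  intro D hD
  have h3 : (0 : ℤ) < 3 := by norm_num
  rw [exch h3]
  refine dvd_sum fun q hq => ?_
  have hq' := mem_FS.1 hq
  refine one_or hD.1 hq'.1 (pm_o3 ?_)
  have h := b_ne (p := 3) (by norm_num) (by have := hD.2.1; omega) ⟨hq'.1, hq'.2.1⟩
  exact_mod_cast h

/-- the reflection `b ↦ -b` -/
theorem refl {N D p : ℕ} (hpN : p ∣ N) (hpD : ¬ p ∣ D) {f : ℤ × ℤ × ℤ → ℤ}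
    (hf : ∀ a b c : ℤ, f (a, -b, c) = f (a, b, c)) :
    ∑ q ∈ FS N D 0 1 one_pos, f q = 2 * ∑ q ∈ (FS N D 0 1 one_pos).filter (fun q => 0 < q.2.1), f q := by
  have h1 := sum_filter_add_sum_filter_not (FS N D 0 1 one_pos) (fun q => 0 < q.2.1) f
  rw [← h1, two_mul]
  congr 1
  refine sum_nbij' (fun q => (q.1, -q.2.1, q.2.2)) (fun q => (q.1, -q.2.1, q.2.2)) ?_ ?_ ?_ ?_ ?_
  · rintro ⟨a, b, c⟩ hq
    rw [mem_filter, mem_FS] at hq ⊢
    obtain ⟨⟨g1, g2, g3, g4⟩, g5⟩ := hq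
    have hb := b_ne hpN hpD (q := (a, b, c)) ⟨g1, g2⟩
    simp only at g1 g2 g3 g4 g5 hb
    have hb0 : b ≠ 0 := fun h => hb (by rw [h, Int.zero_emod])
    refine ⟨⟨?_, g2, g3, ?_⟩, ?_⟩
    · simp only
      rw [← g1]
      ring
    · simp only
      linarith
    · simp only
      omega
  · rintro ⟨a, b, c⟩ hq
    rw [mem_filter, mem_FS] at hq ⊢
    obtain ⟨⟨g1, g2, g3, g4⟩, g5⟩ := hq
    simp only at g1 g2 g3 g4 g5
    refine ⟨⟨?_, g2, g3, ?_⟩, ?_⟩
    · simp only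
      rw [← g1]
      ring
    · simp only
      linarith
    · simp only
      omega
  · rintro ⟨a, b, c⟩ _
    simp
  · rintro ⟨a, b, c⟩ _
    simp
  · rintro ⟨a, b, c⟩ _
    exact (hf a b c).symm

theorem ps_neg (D d : ℕ) (a b c : ℤ) : ps D d (a, -b, c) = ps D d (a, b, c) := rfl

theorem o3_neg (b : ℤ) : o3 (-b) = - o3 b := by
  unfold o3
  rw [jacobiSym.neg b (by decide : Odd 3)]
  have h2 : ZMod.χ₄ (3 : ℕ) = -1 := by decide
  rw [h2, neg_one_mul]

theorem o5_neg {b : ℤ} (h : b % 5 ≠ 0) : o5 (-b) = - o5 b := by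
  unfold o5
  have h1 : (-b) % 5 = 5 - b % 5 := by omega
  have h2 : b % 5 = 1 ∨ b % 5 = 2 ∨ b % 5 = 3 ∨ b % 5 = 4 := by omega
  rw [h1]
  rcases h2 with h2 | h2 | h2 | h2 <;> rw [h2] <;> norm_num

end Pool.Agent.N855.RQ
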