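import Pool.Agent.N855.RQ.Int

/-!
# INT: integrality, level `15`
-/

set_option autoImplicit false

namespace Pool.Agent.N855.RQ

open Finset
open Pool.Agent.N969.RQ

/-- the part at the cusp `0` -/
theorem part0 {N D p : ℕ} (hpN : p ∣ N) (hpD : ¬ p ∣ D) {g : ℤ → ℤ}
    (hg : ∀ b : ℤ, b % p ≠ 0 → g (-b) = g b) :
    ∑ d ∈ ud D, (if sgd D d = 1 then 0 else J N g D d 0 1) =
      ∑ q ∈ (FS N D 0 1 one_pos).filter (fun q => 0 < q.2.1),
        g q.2.1 * (2 * ∑ d ∈ ud D, (if sgd D d = 1 then 0 else ps D d q)) := by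
  have e1 : ∑ d ∈ ud D, (if sgd D d = 1 then 0 else J N g D d 0 1) =
      ∑ q ∈ FS N D 0 1 one_pos, g q.2.1 * ∑ d ∈ ud D, (if sgd D d = 1 then 0 else ps D d q) := by
    simp only [mul_sum]
    rw [sum_comm]
    refine sum_congr rfl fun d _ => ?_
    split_ifs
    · simp
    · exact J_eq N g D d 0 1 one_pos
  rw [e1]
  have e2 : ∑ q ∈ FS N D 0 1 one_pos, g q.2.1 * ∑ d ∈ ud D, (if sgd D d = 1 then 0 else ps D d q) =
      ∑ q ∈ FS N D 0 1 one_pos, (if q.2.1 % p = 0 then 0 else g q.2.1) *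
        ∑ d ∈ ud D, (if sgd D d = 1 then 0 else ps D d q) := by
    refine sum_congr rfl fun q hq => ?_
    have hq' := mem_FS.1 hq
    rw [if_neg (b_ne hpN hpD ⟨hq'.1, hq'.2.1⟩)]
  rw [e2, refl hpN hpD (f := fun q => (if q.2.1 % p = 0 then 0 else g q.2.1) *
        ∑ d ∈ ud D, (if sgd D d = 1 then 0 else ps D d q)), mul_sum]
  · refine sum_congr rfl fun q hq => ?_
    have hq' := mem_FS.1 (mem_filter.1 hq).1
    rw [if_neg (b_ne hpN hpD ⟨hq'.1, hq'.2.1⟩)]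
    ring
  · intro a b c
    simp only
    have h1 : (-b) % (p : ℤ) = 0 ↔ b % (p : ℤ) = 0 := by
      rw [← Int.dvd_iff_emod_eq_zero, ← Int.dvd_iff_emod_eq_zero, dvd_neg]
    by_cases h : b % (p : ℤ) = 0
    · rw [if_pos (h1.2 h), if_pos h, zero_mul, zero_mul]
    · rw [if_neg (fun h' => h (h1.1 h')), if_neg h, hg b h]
      rfl

theorem nd5 {D : ℕ} (h : jacobiSym D 5 = 1) : ¬ 5 ∣ D := by
  rintro ⟨k, rfl⟩
  rw [(jacobiSym.eq_zero_iff_not_coprime).2] at h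
  · norm_num at h
  · rw [Int.gcd_natCast_natCast]
    norm_num

theorem t_INT15 : S_INT15 := by
  intro D hD
  have h3 : (0 : ℤ) < 3 := by norm_num
  have h1 : (0 : ℤ) < 1 := by norm_num
  have e : ∑ d ∈ ud D, (if sgd D d = 1 then J 15 o5 D d 1 3 + J 15 o3 D d 1 3
      else J 15 one D d 1 3 + J 15 one D d 0 1 + J 15 (fun b => o3 b * o5 b) D d 1 3 +
        J 15 (fun b => o3 b * o5 b) D d 0 1) =
      ∑ d ∈ ud D, (if sgd D d = 1 then J 15 (fun b => o3 b + o5 b) D d 1 3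
        else J 15 (fun b => one b + o3 b * o5 b) D d 1 3) +
      ∑ d ∈ ud D, (if sgd D d = 1 then 0 else J 15 (fun b => one b + o3 b * o5 b) D d 0 1) := by
    rw [← sum_add_distrib]
    refine sum_congr rfl fun d _ => ?_
    split_ifs
    · rw [add_zero, add_comm]
      exact J_add _ _ _ _ _ _ h3
    · rw [← J_add _ _ _ _ _ _ h3, ← J_add _ _ _ _ _ _ h1]
      ring
  rw [e]
  have hD3 : ¬ 3 ∣ D := by have := hD.2.1; omega
  have hD5 : ¬ 5 ∣ D := nd5 hD.2.2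
  have hb : ∀ q : ℤ × ℤ × ℤ, q.2.1 ^ 2 - 4 * q.1 * q.2.2 = (D : ℤ) ∧ ((15 : ℕ) : ℤ) ∣ q.1 →
      (o3 q.2.1 = 1 ∨ o3 q.2.1 = -1) ∧ (o5 q.2.1 = 1 ∨ o5 q.2.1 = -1) := by
    intro q hq
    have g3 := b_ne (p := 3) (by norm_num) hD3 hq
    have g5 := b_ne (p := 5) (by norm_num) hD5 hq
    exact ⟨pm_o3 (by exact_mod_cast g3), pm_o5 (by exact_mod_cast g5)⟩
  refine dvd_add ?_ ?_
  · rw [exch h3]
    refine dvd_sum fun q hq => ?_
    have hq' := mem_FS.1 hq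
    obtain ⟨g3, g5⟩ := hb q ⟨hq'.1, hq'.2.1⟩
    exact two_or hD.1 hq'.1 g3 g5
  · rw [part0 (p := 5) (by norm_num) hD5]
    · refine dvd_sum fun q hq => ?_
      have hq' := mem_FS.1 (mem_filter.1 hq).1
      obtain ⟨g3, g5⟩ := hb q ⟨hq'.1, hq'.2.1⟩
      have h2 : (2 : ℤ) ∣ one q.2.1 + o3 q.2.1 * o5 q.2.1 := by
        unfold one
        rcases g3 with g3 | g3 <;> rcases g5 with g5 | g5 <;> rw [g3, g5] <;> norm_num
      rw [pow_succ, mul_comm ((2 : ℤ) ^ _) 2]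
      exact mul_dvd_mul h2 (neg_or hD.1 hq'.1)
    · intro b h
      rw [o3_neg, o5_neg (by exact_mod_cast h)]
      unfold one
      ring

theorem t_INT15r : S_INT15r := by
  intro D hD
  have h3 : (0 : ℤ) < 3 := by norm_num
  have e : ∑ d ∈ ud D, (if sgd D d = 1 then J 15 o5 D d 1 3
      else J 15 one D d 1 3 + J 15 one D d 0 1) =
      ∑ d ∈ ud D, (if sgd D d = 1 then J 15 o5 D d 1 3 else J 15 one D d 1 3) +
      ∑ d ∈ ud D, (if sgd D d = 1 then 0 else J 15 one D d 0 1) := by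
    rw [← sum_add_distrib]
    refine sum_congr rfl fun d _ => ?_
    split_ifs
    · rw [add_zero]
    · rfl
  rw [e]
  have hD5 : ¬ 5 ∣ D := nd5 hD.2.2
  refine dvd_add ?_ ?_
  · rw [exch h3]
    refine dvd_sum fun q hq => ?_
    have hq' := mem_FS.1 hq
    have g5 := b_ne (p := 5) (by norm_num) hD5 (q := q) ⟨hq'.1, hq'.2.1⟩
    exact one_or hD.1 hq'.1 (pm_o5 (by exact_mod_cast g5))
  · rw [part0 (p := 5) (by norm_num) hD5]
    · refine dvd_sum fun q hq => ?_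
      have hq' := mem_FS.1 (mem_filter.1 hq).1
      exact Dvd.dvd.mul_left (neg_or hD.1 hq'.1) _
    · intro b _
      rfl

end Pool.Agent.N855.RQ
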