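import Pool.Agent.N969.RQ.Defs

/-!
# Sums over the unitary divisors of a multiplicative function, and the support of the crossing numbers
-/

set_option autoImplicit false

namespace Pool.Agent.N855.RQ

open Finset
open Pool.Agent.N969.RQ
open Pool.Agent.N969.P17G (gen starP)
open Pool.Agent.N969.P15 (c2)

theorem fac_ud {D d p : ℕ} (hD : D ≠ 0) (h : d ∈ ud D) (hp : p ∈ d.primeFactors) :
    d.factorization p = D.factorization p := by
  unfold ud at h
  rw [mem_filter, Nat.mem_divisors] at h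
  obtain ⟨⟨h1, -⟩, h2⟩ := h
  have h3 : D = d * (D / d) := (Nat.mul_div_cancel' h1).symm
  have h5 : p.Prime := Nat.prime_of_mem_primeFactors hp
  have h6 : ¬ p ∣ D / d := fun h7 =>
    h5.one_lt.ne' (Nat.dvd_one.1 (h2.gcd_eq_one ▸ Nat.dvd_gcd (Nat.dvd_of_mem_primeFactors hp) h7))
  have hd0 : d ≠ 0 := fun h => hD (by rw [h3, h, zero_mul])
  have hq0 : D / d ≠ 0 := fun h => hD (by rw [h3, h, mul_zero])
  conv_rhs => rw [h3]
  rw [Nat.factorization_mul hd0 hq0, Finsupp.add_apply, Nat.factorization_eq_zero_of_not_dvd h6,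
    add_zero]

theorem ud_inj {D : ℕ} (hD : D ≠ 0) : Set.InjOn Nat.primeFactors (ud D : Set ℕ) := by
  intro d hd e he h
  have hd' : d ∈ ud D := hd
  have he' : e ∈ ud D := he
  have hd0 : d ≠ 0 := by
    unfold ud at hd'
    rw [mem_filter, Nat.mem_divisors] at hd'
    exact fun h => hD (Nat.eq_zero_of_zero_dvd (h ▸ hd'.1.1))
  have he0 : e ≠ 0 := by
    unfold ud at he'
    rw [mem_filter, Nat.mem_divisors] at he'
    exact fun h => hD (Nat.eq_zero_of_zero_dvd (h ▸ he'.1.1))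
  refine Nat.eq_of_factorization_eq hd0 he0 fun p => ?_
  have h : d.primeFactors = e.primeFactors := h
  by_cases hp : p ∈ d.primeFactors
  · rw [fac_ud hD hd' hp, fac_ud hD he' (h ▸ hp)]
  · have hp' : p ∉ e.primeFactors := h ▸ hp
    rw [← Nat.support_factorization, Finsupp.notMem_support_iff] at hp hp'
    rw [hp, hp']

theorem ud_surj {D : ℕ} (hD : D ≠ 0) {T : Finset ℕ} (hT : T ⊆ D.primeFactors) :
    ∃ d ∈ ud D, d.primeFactors = T := by
  have hpr : ∀ p ∈ D.primeFactors, p.Prime := fun p hp => Nat.prime_of_mem_primeFactors hp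
  have e : (∏ p ∈ T, p ^ D.factorization p) * ∏ p ∈ D.primeFactors \ T, p ^ D.factorization p = D := by
    rw [mul_comm, prod_sdiff hT]
    exact Nat.factorization_prod_pow_eq_self hD
  set d := ∏ p ∈ T, p ^ D.factorization p with hd
  set r := ∏ p ∈ D.primeFactors \ T, p ^ D.factorization p with hr
  have hd0 : d ≠ 0 := fun h => hD (by rw [← e, h, zero_mul])
  have hcop : Nat.Coprime d r := by
    rw [hd, hr]
    refine Nat.Coprime.prod_left fun p hp => Nat.Coprime.prod_right fun q hq => ?_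
    refine Nat.Coprime.pow _ _ ((Nat.coprime_primes (hpr p (hT hp)) (hpr q (mem_sdiff.1 hq).1)).2 ?_)
    rintro rfl
    exact (mem_sdiff.1 hq).2 hp
  refine ⟨d, ?_, ?_⟩
  · unfold ud
    rw [mem_filter, Nat.mem_divisors]
    have e2 : D / d = r := Nat.div_eq_of_eq_mul_right (Nat.pos_of_ne_zero hd0) e.symm
    rw [e2]
    exact ⟨⟨Dvd.intro _ e, hD⟩, hcop⟩
  · ext p
    rw [Nat.mem_primeFactors]
    constructor
    · rintro ⟨h1, h2, -⟩
      rw [hd, h1.prime.dvd_finset_prod_iff] at h2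
      obtain ⟨q, hq, h3⟩ := h2
      have h4 := (Nat.prime_dvd_prime_iff_eq h1 (hpr q (hT hq))).1 (h1.dvd_of_dvd_pow h3)
      rwa [h4]
    · intro hp
      refine ⟨hpr p (hT hp), ?_, hd0⟩
      rw [hd]
      refine dvd_trans (dvd_pow_self p ?_) (dvd_prod_of_mem _ hp)
      have := hT hp
      rwa [← Nat.support_factorization, Finsupp.mem_support_iff] at this

theorem sum_ud {D : ℕ} (hD : D ≠ 0) (h : ℕ → ℤ) :
    ∑ d ∈ ud D, ∏ p ∈ d.primeFactors, h p = ∏ p ∈ D.primeFactors, (1 + h p) := by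
  rw [prod_one_add]
  refine sum_nbij Nat.primeFactors (fun d hd => ?_) (ud_inj hD) (fun T hT => ?_) (fun _ _ => rfl)
  · unfold ud at hd
    rw [mem_filter, Nat.mem_divisors] at hd
    exact mem_powerset.2 (Nat.primeFactors_mono hd.1.1 hD)
  · obtain ⟨d, h1, h2⟩ := ud_surj hD (mem_powerset.1 hT)
    exact ⟨d, h1, h2⟩

/-- the genus character at one prime -/
def gp (D : ℕ) (q : ℤ × ℤ × ℤ) (p : ℕ) : ℤ :=
  if p = 2 then (if (2 : ℤ) ∣ q.1 then c2 (3 * D) q.2.2 else c2 (3 * D) q.1) else gen p q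

theorem ps_eq {D d : ℕ} (hd : d ≠ 0) (q : ℤ × ℤ × ℤ) : ps D d q = ∏ p ∈ d.primeFactors, gp D q p := by
  unfold ps
  by_cases h2 : 2 ∣ d
  · have hm : 2 ∈ d.primeFactors := Nat.mem_primeFactors.2 ⟨Nat.prime_two, h2, hd⟩
    rw [if_pos h2, ← mul_prod_erase _ _ hm]
    congr 1
    refine prod_congr rfl fun p hp => ?_
    exact (if_neg (ne_of_mem_erase hp)).symm
  · have hm : 2 ∉ d.primeFactors := fun h => h2 (Nat.mem_primeFactors.1 h).2.1
    rw [if_neg h2, one_mul, erase_eq_of_notMem hm]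
    refine prod_congr rfl fun p hp => ?_
    have hp2 : p ≠ 2 := by
      rintro rfl
      exact hm hp
    exact (if_neg hp2).symm

theorem sg_pm {D p : ℕ} (hp : p ≠ 0) : Int.sign (starP D p) = 1 ∨ Int.sign (starP D p) = -1 := by
  have h : starP D p ≠ 0 := by
    unfold starP
    split_ifs <;> omega
  rcases lt_or_gt_of_ne h with h | h
  · exact Or.inr (Int.sign_eq_neg_one_of_neg h)
  · exact Or.inl (Int.sign_eq_one_of_pos h)

/-- a product of numbers `0` and `2` -/
theorem dvd_prod {S : Finset ℕ} {f : ℕ → ℤ} (h : ∀ p ∈ S, f p = 1 ∨ f p = -1) :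
    (2 : ℤ) ^ S.card ∣ ∏ p ∈ S, (1 + f p) := by
  rw [← prod_const]
  refine Finset.prod_dvd_prod_of_dvd _ _ fun p hp => ?_
  rcases h p hp with h | h <;> rw [h] <;> norm_num

theorem c2_pm {n : ℕ} {u : ℤ} (h : u % 2 = 1) : c2 n u = 1 ∨ c2 n u = -1 := by
  unfold c2
  split_ifs <;> first | omega | simp | rfl

/-- a fundamental discriminant has no odd square factor -/
theorem fd_sq {D p : ℕ} (hD : Fd D) (hp : p.Prime) (hp2 : p ≠ 2) : ¬ p ^ 2 ∣ D := by
  intro h
  rcases hD.2 with ⟨h1, -⟩ | ⟨M, rfl, h1, -⟩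
  · rw [pow_two] at h
    have := h1 p h
    rw [Nat.isUnit_iff] at this
    exact hp.one_lt.ne' this
  · have hc : Nat.Coprime (p ^ 2) 4 := by
      refine Nat.Coprime.pow_left 2 ?_
      rw [Nat.Prime.coprime_iff_not_dvd hp]
      intro h2
      have h3 : p ∣ 2 ^ 2 := by norm_num; exact h2
      exact hp2 ((Nat.prime_dvd_prime_iff_eq hp Nat.prime_two).1 (hp.dvd_of_dvd_pow h3))
    have h3 := hc.dvd_of_dvd_mul_left h
    rw [pow_two] at h3
    have := h1 p h3
    rw [Nat.isUnit_iff] at this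
    exact hp.one_lt.ne' this

/-- the genus characters are signs -/
theorem gp_pm {D : ℕ} (hD : Fd D) {q : ℤ × ℤ × ℤ} (hq : q.2.1 ^ 2 - 4 * q.1 * q.2.2 = (D : ℤ))
    {p : ℕ} (hp : p ∈ D.primeFactors) : gp D q p = 1 ∨ gp D q p = -1 := by
  obtain ⟨a, b, c⟩ := q
  simp only at hq
  have hpp := Nat.prime_of_mem_primeFactors hp
  have hpD := Nat.dvd_of_mem_primeFactors hp
  unfold gp
  by_cases h2 : p = 2
  · subst h2
    rw [if_pos rfl]
    have hD4 : ∃ M : ℕ, D = 4 * M ∧ (M % 4 = 2 ∨ M % 4 = 3) := by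
      rcases hD.2 with ⟨h1, h3⟩ | ⟨M, h1, -, h3⟩
      · omega
      · exact ⟨M, h1, h3⟩
    obtain ⟨M, rfl, hM⟩ := hD4
    by_cases ha : (2 : ℤ) ∣ a
    · rw [if_pos ha]
      apply c2_pm
      by_contra hc
      simp only at hc
      obtain ⟨a', rfl⟩ := ha
      obtain ⟨c', rfl⟩ : ∃ c', c = 2 * c' := ⟨c / 2, by omega⟩
      have hb : b % 2 = 0 := by
        by_contra hb
        obtain ⟨b', rfl⟩ : ∃ b', b = 2 * b' + 1 := ⟨b / 2, by omega⟩
        have : (4 : ℤ) * (b' ^ 2 + b' - 4 * a' * c' - M) = -1 := by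
          push_cast at hq
          linarith
        omega
      obtain ⟨b', rfl⟩ : ∃ b', b = 2 * b' := ⟨b / 2, by omega⟩
      have h4 : b' ^ 2 - 4 * (a' * c') = (M : ℤ) := by
        push_cast at hq
        linarith
      rcases Int.even_or_odd' b' with ⟨k, rfl | rfl⟩
      · have : (4 : ℤ) * (k ^ 2 - a' * c') = M := by linarith
        omega
      · have : (4 : ℤ) * (k ^ 2 + k - a' * c') + 1 = M := by linarith
        omega
    · rw [if_neg ha]
      apply c2_pm
      simp only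
      omega
  · rw [if_neg h2]
    unfold gen
    simp only
    have key : ∀ x : ℤ, ¬ (p : ℤ) ∣ x → jacobiSym x p = 1 ∨ jacobiSym x p = -1 := by
      intro x hx
      apply jacobiSym.eq_one_or_neg_one
      rw [Int.gcd_comm]
      exact ((Nat.Prime.coprime_iff_not_dvd hpp).2 fun h => hx (Int.natCast_dvd.2 h))
    split_ifs with ha
    · apply key
      intro hc
      have hpb : (p : ℤ) ∣ b ^ 2 := by
        have e : b ^ 2 = D + 4 * a * c := by linarith
        rw [e]
        exact dvd_add (by exact_mod_cast hpD) (Dvd.dvd.mul_right (Dvd.dvd.mul_left ha 4) c)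
      have hpb' := Int.Prime.dvd_pow' hpp hpb
      have h5 : ((p ^ 2 : ℕ) : ℤ) ∣ (D : ℤ) := by
        rw [← hq]
        push_cast
        refine dvd_sub (pow_dvd_pow_of_dvd hpb' 2) ?_
        rw [pow_two, mul_assoc]
        exact Dvd.dvd.mul_left (mul_dvd_mul ha hc) 4
      exact fd_sq hD hpp h2 (by exact_mod_cast h5)
    · exact key _ ha

/-- `U + V` and `U - V` for one form -/
theorem dvd_one {D : ℕ} (hD : Fd D) {q : ℤ × ℤ × ℤ} (hq : q.2.1 ^ 2 - 4 * q.1 * q.2.2 = (D : ℤ)) :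
    (2 : ℤ) ^ D.primeFactors.card ∣ ∑ d ∈ ud D, ps D d q ∧
    (2 : ℤ) ^ D.primeFactors.card ∣ ∑ d ∈ ud D, sgd D d * ps D d q := by
  have hD0 : D ≠ 0 := by have := hD.1; omega
  have hd0 : ∀ d ∈ ud D, d ≠ 0 := by
    intro d hd
    unfold ud at hd
    rw [mem_filter, Nat.mem_divisors] at hd
    exact fun h => hD0 (Nat.eq_zero_of_zero_dvd (h ▸ hd.1.1))
  constructor
  · rw [sum_congr rfl fun d hd => ps_eq (hd0 d hd) q, sum_ud hD0]
    exact dvd_prod fun p hp => gp_pm hD hq hp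
  · have e : ∀ d ∈ ud D, sgd D d * ps D d q =
        ∏ p ∈ d.primeFactors, Int.sign (starP D p) * gp D q p := by
      intro d hd
      rw [ps_eq (hd0 d hd) q, prod_mul_distrib]
      rfl
    rw [sum_congr rfl e, sum_ud hD0]
    refine dvd_prod fun p hp => ?_
    have h1 := gp_pm hD hq hp
    have h2 := @sg_pm D p (Nat.prime_of_mem_primeFactors hp).ne_zero
    rcases h1 with h1 | h1 <;> rcases h2 with h2 | h2 <;> rw [h1, h2] <;> simp

end Pool.Agent.N855.RQ
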