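import Pool.Agent.N969.RQ.Defs3
import Pool.Agent.N970.RQ.Sgd
import Pool.Agent.N855.RQ.Ud

/-!
# The parity step: sums over the unitary divisors modulo powers of two
-/

set_option autoImplicit false

namespace Pool.Agent.N855.RQp

open Finset
open Pool.Agent.N969.RQ
open Pool.Agent.N969.P15 (Ev)
open Pool.Agent.N970.RQ (sgd_co Un_co mod_of_sgd sq_of_odd prod_sign chi_pm)

/-- `x` is `2 ^ k` times an integer which is odd if and only if `e` -/
def Val (k : ℕ) (x : ℤ) (e : Prop) : Prop := ∃ z : ℤ, x = 2 ^ k * z ∧ (Odd z ↔ e)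

theorem Val.congr {k : ℕ} {x : ℤ} {e e' : Prop} (h : Val k x e) (he : e ↔ e') : Val k x e' := by
  obtain ⟨z, h1, h2⟩ := h
  exact ⟨z, h1, h2.trans he⟩

theorem Val.zero (k : ℕ) {e : Prop} (he : ¬ e) : Val k 0 e :=
  ⟨0, by simp, ⟨fun h => absurd h (by decide), fun h => absurd h he⟩⟩

theorem Val.of_dvd {k : ℕ} {x : ℤ} {e : Prop} (h : (2 : ℤ) ^ (k + 1) ∣ x) (he : ¬ e) : Val k x e := by
  obtain ⟨z, rfl⟩ := h
  refine ⟨2 * z, by ring, ⟨fun h => ?_, fun h => absurd h he⟩⟩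
  exact absurd h (by rw [Int.not_odd_iff_even]; exact even_two_mul z)

theorem Val.dvd {k : ℕ} {x : ℤ} {e : Prop} (h : Val k x e) : (2 : ℤ) ^ k ∣ x := by
  obtain ⟨z, rfl, -⟩ := h
  exact Dvd.intro _ rfl

theorem Val.neg {k : ℕ} {x : ℤ} {e : Prop} (h : Val k x e) : Val k (-x) e := by
  obtain ⟨z, rfl, h⟩ := h
  exact ⟨-z, by ring, by rw [odd_neg]; exact h⟩

theorem Val.mul {k l : ℕ} {x y : ℤ} {e f : Prop} (h : Val k x e) (h' : Val l y f) :
    Val (k + l) (x * y) (e ∧ f) := by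
  obtain ⟨z, rfl, h⟩ := h
  obtain ⟨z', rfl, h'⟩ := h'
  exact ⟨z * z', by ring, by rw [Int.odd_mul, h, h']⟩

/-- division by an odd number -/
theorem Val.div {k : ℕ} {x m : ℤ} {e : Prop} (hm : Odd m) (h : Val k (m * x) e) : Val k x e := by
  obtain ⟨z, h1, h2⟩ := h
  have h3 : (2 : ℤ) ^ k ∣ x := by
    have h4 : IsCoprime ((2 : ℤ) ^ k) m := by
      refine IsCoprime.pow_left ?_
      rw [Int.isCoprime_iff_gcd_eq_one]
      exact Int.isCoprime_iff_gcd_eq_one.1 (Int.isCoprime_two_left.2 hm)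
    exact h4.dvd_of_dvd_mul_left ⟨z, h1⟩
  obtain ⟨y, rfl⟩ := h3
  refine ⟨y, rfl, ?_⟩
  have h4 : (2 : ℤ) ^ k * (m * y) = 2 ^ k * z := by rw [← h1]; ring
  have h5 : m * y = z := mul_left_cancel₀ (by positivity) h4
  rw [← h2, ← h5, Int.odd_mul]
  exact ⟨fun h => ⟨hm, h⟩, fun h => h.2⟩

/-- division by a power of two -/
theorem Val.shift {k l : ℕ} {x : ℤ} {e : Prop} (h : Val (k + l) (2 ^ l * x) e) : Val k x e := by
  obtain ⟨z, h1, h2⟩ := h
  refine ⟨z, ?_, h2⟩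
  have : (2 : ℤ) ^ l * x = 2 ^ l * (2 ^ k * z) := by rw [h1]; ring
  exact mul_left_cancel₀ (by positivity) this

theorem un_of {D d : ℕ} (h : d ∈ ud D) : Un D d := by
  unfold ud at h
  rw [mem_filter, Nat.mem_divisors] at h
  exact ⟨h.1.1, h.2⟩

theorem ud_of {D d : ℕ} (hD : D ≠ 0) (h : Un D d) : d ∈ ud D := by
  unfold ud
  rw [mem_filter, Nat.mem_divisors]
  exact ⟨⟨h.1, hD⟩, h.2⟩

theorem un_co {D d : ℕ} (hD : D ≠ 0) (hU : Un D d) : Un D (D / d) ∧ D / (D / d) = d := by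
  obtain ⟨h1, h2⟩ := hU
  have e := Nat.div_div_self h1 hD
  exact ⟨⟨Nat.div_dvd_of_dvd h1, by rw [e]; exact h2.symm⟩, e⟩

/-- a prime dividing `D` divides exactly one of `d`, `D / d` -/
theorem dvd_co {D d p : ℕ} (hp : p.Prime) (hpD : p ∣ D) (hU : Un D d) : p ∣ D / d ↔ ¬ p ∣ d := by
  obtain ⟨h1, h2⟩ := hU
  constructor
  · intro h h3
    exact hp.one_lt.ne' (Nat.dvd_one.1 (h2.gcd_eq_one ▸ Nat.dvd_gcd h3 h))
  · intro h
    have e : d * (D / d) = D := Nat.mul_div_cancel' h1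
    rw [← e] at hpD
    exact (hp.dvd_mul.1 hpD).resolve_left h

theorem sum_half {D p : ℕ} (hD : D ≠ 0) (hp : p.Prime) (hpD : p ∣ D) (f : ℕ → ℤ)
    (hs : ∀ d, Un D d → f (D / d) = f d) :
    ∑ d ∈ ud D, f d = 2 * ∑ d ∈ (ud D).filter (p ∣ ·), f d := by
  rw [← sum_filter_add_sum_filter_not (ud D) (p ∣ ·), two_mul]
  congr 1
  refine sum_nbij' (fun d => D / d) (fun d => D / d) ?_ ?_ ?_ ?_ ?_
  · intro d hd
    rw [mem_filter] at hd ⊢
    have h := un_of hd.1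
    exact ⟨ud_of hD (un_co hD h).1, (dvd_co hp hpD h).2 hd.2⟩
  · intro d hd
    rw [mem_filter] at hd ⊢
    have h := un_of hd.1
    exact ⟨ud_of hD (un_co hD h).1, fun h1 => (dvd_co hp hpD h).1 h1 hd.2⟩
  · intro d hd
    rw [mem_filter] at hd
    exact (un_co hD (un_of hd.1)).2
  · intro d hd
    rw [mem_filter] at hd
    exact (un_co hD (un_of hd.1)).2
  · intro d hd
    rw [mem_filter] at hd
    exact (hs d (un_of hd.1)).symm

theorem sum_val {S : Finset ℕ} {k : ℕ} {f : ℕ → ℤ} {e : ℕ → Prop} [DecidablePred e]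
    (h : ∀ d ∈ S, Val k (f d) (e d)) : Val k (∑ d ∈ S, f d) (Odd (S.filter e).card) := by
  classical
  induction S using Finset.induction_on with
  | empty => exact Val.zero k (by simp)
  | insert a S ha ih =>
    obtain ⟨z, h1, h2⟩ := ih fun d hd => h d (mem_insert_of_mem hd)
    obtain ⟨y, h3, h4⟩ := h a (mem_insert_self a S)
    refine ⟨y + z, ?_, ?_⟩
    · rw [sum_insert ha, h1, h3]
      ring
    · rw [filter_insert]
      by_cases h5 : e a
      · rw [if_pos h5, card_insert_of_notMem fun h6 => ha (mem_filter.1 h6).1, Int.odd_add,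
          ← Int.not_odd_iff_even, h2, Nat.odd_add_one]
        have h6 : Odd y := h4.2 h5
        tauto
      · rw [if_neg h5, Int.odd_add, ← Int.not_odd_iff_even, h2]
        have h6 : ¬ Odd y := fun h7 => h5 (h4.1 h7)
        tauto

open Classical in
theorem core {D p : ℕ} (hD : D ≠ 0) (hp : p.Prime) (hpD : p ∣ D) (f : ℕ → ℤ)
    (e : ℕ → Prop) (k : ℕ) (hs : ∀ d, Un D d → f (D / d) = f d)
    (h : (2 : ℤ) ^ (k + 2) ∣ ∑ d ∈ ud D, f d)
    (he : ∀ d, Un D d → d ≠ 1 → d ≠ D → Val k (f d) (e d)) :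
    Val k (f D) (Odd ((ud D).filter fun d => p ∣ d ∧ d ≠ D ∧ e d).card) := by
  rw [sum_half hD hp hpD f hs] at h
  have hDm : D ∈ (ud D).filter (p ∣ ·) := by
    rw [mem_filter]
    exact ⟨ud_of hD ⟨dvd_rfl, by rw [Nat.div_self (Nat.pos_of_ne_zero hD)]; exact Nat.coprime_one_right D⟩,
      hpD⟩
  rw [← add_sum_erase _ _ hDm] at h
  have h1 : (2 : ℤ) ^ (k + 1) ∣ f D + ∑ d ∈ ((ud D).filter (p ∣ ·)).erase D, f d := by
    rw [pow_succ, mul_comm] at h
    exact Int.dvd_of_mul_dvd_mul_left (by norm_num) h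
  have h2 := sum_val (S := ((ud D).filter (p ∣ ·)).erase D) (k := k) (f := f) (e := e) fun d hd => by
    rw [mem_erase, mem_filter] at hd
    refine he d (un_of hd.2.1) ?_ hd.1
    rintro rfl
    exact hp.one_lt.ne' (Nat.dvd_one.1 hd.2.2)
  have e1 : (((ud D).filter (p ∣ ·)).erase D).filter e =
      (ud D).filter fun d => p ∣ d ∧ d ≠ D ∧ e d := by
    ext d
    simp only [mem_filter, mem_erase]
    tauto
  rw [e1] at h2
  obtain ⟨z, h3, h4⟩ := h2
  obtain ⟨y, h5⟩ := h1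
  refine ⟨2 * y - z, ?_, ?_⟩
  · have : f D = 2 ^ (k + 1) * y - 2 ^ k * z := by linarith
    rw [this]
    ring
  · rw [← h4, Int.odd_sub]
    constructor
    · intro h6
      by_contra h7
      rw [Int.not_odd_iff_even] at h7
      have := h6.2 h7
      rw [← Int.not_even_iff_odd] at this
      exact this (even_two_mul y)
    · intro h6
      refine ⟨fun h7 => ?_, fun h7 => ?_⟩
      · rw [← Int.not_even_iff_odd] at h7
        exact absurd (even_two_mul y) h7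
      · rw [← Int.not_even_iff_odd] at h6
        exact absurd h7 h6

/-! ### the signs -/

theorem sgd_pm {D d : ℕ} (hD : Fd D) (hU : Un D d) : sgd D d = 1 ∨ sgd D d = -1 :=
  Int.eq_one_or_neg_one_of_mul_eq_one (sgd_co hD hU)

theorem sgd_inv {D d : ℕ} (hD : Fd D) (hU : Un D d) : sgd D (D / d) = sgd D d := by
  have h := sgd_co hD hU
  rcases sgd_pm hD hU with h1 | h1 <;> rw [h1] at h ⊢ <;> linarith

theorem mod_pos {D d : ℕ} (hD : Fd D) (hd : d ∣ D) (h2 : ¬ 2 ∣ d) (hs : sgd D d = 1) :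
    d % 4 = 1 := by
  have h := prod_sign D (sq_of_odd hD hd h2) h2
  unfold sgd at hs
  rw [h, chi_pm h2] at hs
  split_ifs at hs with h1
  exact h1

/-- an even unitary divisor -/
theorem even_un {D d : ℕ} (hD : Fd D) (hU : Un D d) (h2 : 2 ∣ d) :
    ∃ k : ℕ, d = 4 * k ∧ ¬ 2 ∣ D / d ∧ Squarefree k ∧ ((k * (D / d)) % 4 = 2 ∨ (k * (D / d)) % 4 = 3) := by
  have hodd : ¬ 2 ∣ D / d := fun h => (dvd_co Nat.prime_two (h2.trans hU.1) hU).1 h h2
  have e : d * (D / d) = D := Nat.mul_div_cancel' hU.1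
  obtain ⟨-, h | ⟨M, hM, hs, hm⟩⟩ := hD
  · exact absurd (h2.trans hU.1) (by omega)
  · have h4 : 4 ∣ d := by
      have : Nat.Coprime 4 (D / d) := by
        have := (Nat.Prime.coprime_iff_not_dvd Nat.prime_two).2 hodd
        exact this.pow_left 2
      exact this.dvd_of_dvd_mul_right (by rw [e, hM]; exact Dvd.intro M rfl)
    obtain ⟨k, rfl⟩ := h4
    have e2 : k * (D / (4 * k)) = M := by
      have : 4 * (k * (D / (4 * k))) = 4 * M := by rw [← hM, ← mul_assoc]; exact e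
      exact Nat.eq_of_mul_eq_mul_left (by norm_num) this
    exact ⟨k, rfl, hodd, hs.squarefree_of_dvd ⟨_, e2.symm⟩, by rw [e2]; exact hm⟩

/-- the positive unitary divisors -/
theorem fd_pos {D d : ℕ} (hD : Fd D) (hU : Un D d) (hs : sgd D d = 1) (h1 : d ≠ 1) : Fd d := by
  have hd0 : d ≠ 0 := fun h => by
    have h2 := hU.1
    rw [h, zero_dvd_iff] at h2
    have := hD.1
    omega
  refine ⟨by omega, ?_⟩
  by_cases h2 : 2 ∣ d
  · obtain ⟨k, h3, h4, h5, h6⟩ := even_un hD hU h2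
    have h7 := mod_pos hD (un_co (by have := hD.1; omega) hU).1.1 h4 (by rw [sgd_inv hD hU]; exact hs)
    refine Or.inr ⟨k, h3, h5, ?_⟩
    rwa [Nat.mul_mod, h7, mul_one, Nat.mod_mod] at h6
  · exact Or.inl ⟨sq_of_odd hD hU.1 h2, mod_pos hD hU.1 h2 hs⟩

/-- the negative unitary divisors -/
theorem fn_neg {D d : ℕ} (hD : Fd D) (hU : Un D d) (hs : sgd D d = -1) :
    (Squarefree d ∧ d % 4 = 3) ∨ Ev d := by
  by_cases h2 : 2 ∣ d
  · obtain ⟨k, h3, h4, h5, h6⟩ := even_un hD hU h2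
    have h7 := mod_of_sgd hD (un_co (by have := hD.1; omega) hU).1.1 h4
      (by rw [sgd_inv hD hU]; exact hs)
    refine Or.inr ⟨k, h3, h5, ?_⟩
    rw [Nat.mul_mod, h7] at h6
    have := Nat.mod_lt k (show 0 < 4 by norm_num)
    interval_cases hk : k % 4 <;> omega
  · exact Or.inl ⟨sq_of_odd hD hU.1 h2, mod_of_sgd hD hU.1 h2 hs⟩

/-- a pair of positive discriminants is not a pair of negative ones -/
theorem not_both {D d : ℕ} (hU : Un D d) (hD : D ≠ 0) (h1 : Fd d) (h2 : Fd (D / d))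
    (h3 : (Squarefree d ∧ d % 4 = 3) ∨ Ev d) (h4 : (Squarefree (D / d) ∧ (D / d) % 4 = 3) ∨ Ev (D / d)) :
    False := by
  by_cases h : 2 ∣ d
  · have h5 : ¬ 2 ∣ D / d := fun h6 => hU.2.gcd_eq_one.not_gt
      (Nat.lt_of_lt_of_le one_lt_two (Nat.le_of_dvd (Nat.gcd_pos_of_pos_left _
        (Nat.pos_of_dvd_of_pos hU.1 (Nat.pos_of_ne_zero hD))) (Nat.dvd_gcd h h6)))
    rcases h2.2 with h6 | ⟨M, h6, -⟩
    · rcases h4 with h7 | ⟨m, h7, -⟩ <;> omega
    · omega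
  · rcases h1.2 with h6 | ⟨M, h6, -⟩
    · rcases h3 with h7 | ⟨m, h7, -⟩ <;> omega
    · omega

/-- the number of prime factors of the two divisors -/
theorem card_co {D d : ℕ} (hU : Un D d) :
    d.primeFactors.card + (D / d).primeFactors.card = D.primeFactors.card := by
  rw [← card_union_of_disjoint hU.2.disjoint_primeFactors, ← hU.2.primeFactors_mul,
    Nat.mul_div_cancel' hU.1]

end Pool.Agent.N855.RQp
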