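import Pool.Agent.N969.RQ.Defs4
import Pool.Agent.N970.RQ.NegF
import Pool.Agent.N975.RQ.Frz
import Pool.Agent.N855.RQ.Pc
import Pool.Agent.N855.RQ.Int

/-!
# The parity step at level `21`
-/

set_option autoImplicit false

namespace Pool.Agent.N855.RQp

open Finset
open Pool.Agent.N969.RQ
open Pool.Agent.N969.P15 (Ev)
open Pool.Agent.N877.P21G (Ai Fn I7 QQ P7 K0 S_R7 S_R7r)

/-! ### the numbers of vectors -/

theorem rr7_eq (n : ℕ) : rr7 n = (vec7 n).card := by
  unfold rr7 vec7
  congr 2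
  refine filter_congr fun v _ => ?_
  unfold ip7
  constructor <;> intro h <;> linarith

theorem rr7_zero {n : ℕ} (h7 : ¬ 7 ∣ n) (hI : ¬ I7 n) : rr7 n = 0 := by
  unfold rr7
  rw [Nat.cast_eq_zero, card_eq_zero, filter_eq_empty_iff]
  intro v _ h
  have h1 : (2 * v 1 + v 2) ^ 2 + 7 * (v 0 ^ 2 + v 2 ^ 2) = n := by linarith
  have h2 : ((2 * v 1 + v 2) ^ 2) % 7 = (n : ℤ) % 7 := by omega
  have h3 : ((2 * v 1 + v 2) ^ 2) % 7 = 0 ∨ ((2 * v 1 + v 2) ^ 2) % 7 = 1 ∨
      ((2 * v 1 + v 2) ^ 2) % 7 = 2 ∨ ((2 * v 1 + v 2) ^ 2) % 7 = 4 := by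
    rw [pow_two, Int.mul_emod]
    have h4 := Int.emod_nonneg (2 * v 1 + v 2) (show (7 : ℤ) ≠ 0 by norm_num)
    have h5 := Int.emod_lt_of_pos (2 * v 1 + v 2) (show (0 : ℤ) < 7 by norm_num)
    generalize (2 * v 1 + v 2) % 7 = r at h4 h5 ⊢
    interval_cases r <;> simp
  unfold I7 at hI
  omega

theorem rr7_four : rr7 4 = 2 := by
  unfold rr7
  decide +kernel

theorem v7 (hR7 : S_R7) {n : ℕ} (hn : Fn n) (hI : I7 n) (h4 : n ≠ 4) (h3 : ¬ 3 ∣ n) :
    Val (n.primeFactors.card + 1) (rr7 n) (QQ n) := by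
  have h5 : 4 < n := by
    rcases hn with ⟨-, h⟩ | ⟨m, h, -, h'⟩ <;> omega
  obtain ⟨g, h6, h7⟩ := hR7 n hn hI h5
  exact ⟨g, by rw [rr7_eq]; exact_mod_cast h6, h7⟩

theorem v7r (hR7r : S_R7r) {n : ℕ} (hn : Fn n) (h : 7 ∣ n) :
    Val n.primeFactors.card (rr7 n) (QQ n) := by
  obtain ⟨g, h6, h7⟩ := hR7r n hn h
  exact ⟨g, by rw [rr7_eq]; exact_mod_cast h6, h7⟩

/-! ### the conditions -/

/-- a pair of negative discriminants -/
def En7 (D d : ℕ) : Prop := (Fn d ∧ Fn (D / d) ∧ d % 3 = 2 ∧ (7 ∣ d ∨ I7 d) ∧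
  (7 ∣ D / d ∨ I7 (D / d)) ∧ QQ d ∧ QQ (D / d)) ∨ (d = 4 ∧ QQ (D / d)) ∨ (D / d = 4 ∧ QQ d)

/-- a pair of positive discriminants -/
def Ep7 (cI : ℕ → Prop) (D d : ℕ) : Prop := Ai d ∧ Ai (D / d) ∧ cI d ∧ cI (D / d)

theorem mul_mod3 {D d : ℕ} (hd : d ∣ D) (hD : D % 3 = 1) :
    (d % 3 = 1 ∧ (D / d) % 3 = 1) ∨ (d % 3 = 2 ∧ (D / d) % 3 = 2) := by
  rw [← Nat.mul_div_cancel' hd, Nat.mul_mod] at hD
  have h1 := Nat.mod_lt d (show 0 < 3 by norm_num)
  have h2 := Nat.mod_lt (D / d) (show 0 < 3 by norm_num)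
  interval_cases hx : d % 3 <;> interval_cases hy : (D / d) % 3 <;> omega

theorem En7_symm {D d : ℕ} (hD : D ≠ 0) (hU : Un D d) (h3 : D % 3 = 1) (h : En7 D d) :
    En7 D (D / d) := by
  have e := (un_co hD hU).2
  have h5 := mul_mod3 hU.1 h3
  unfold En7 at h ⊢
  rw [e]
  rcases h with ⟨h1, h2, h3, h4, h5, h6, h7⟩ | h | h
  · exact Or.inl ⟨h2, h1, by omega, h5, h4, h7, h6⟩
  · exact Or.inr (Or.inr h)
  · exact Or.inr (Or.inl h)

theorem En7_comm {D d : ℕ} (hD : D ≠ 0) (hU : Un D d) (h3 : D % 3 = 1) :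
    En7 D d ↔ En7 D (D / d) := by
  refine ⟨En7_symm hD hU h3, fun h => ?_⟩
  have := En7_symm hD (un_co hD hU).1 h3 h
  rwa [(un_co hD hU).2] at this

theorem card_four : (4 : ℕ).primeFactors.card = 1 := by
  rw [show (4 : ℕ) = 2 ^ 2 by norm_num, Nat.primeFactors_prime_pow (by norm_num) Nat.prime_two]
  rfl

theorem cop_four {D : ℕ} (hU : Un D 4) : D / 4 ≠ 4 := fun h => by
  have := hU.2
  rw [h] at this
  exact absurd this (by decide)

/-- `d = 4` -/
theorem En7_four {D : ℕ} (hU : Un D 4) : En7 D 4 ↔ QQ (D / 4) := by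
  unfold En7
  constructor
  · rintro (⟨-, -, h, -⟩ | ⟨-, h⟩ | ⟨h, -⟩)
    · norm_num at h
    · exact h
    · exact absurd h (cop_four hU)
  · intro h
    exact Or.inr (Or.inl ⟨rfl, h⟩)

theorem w_pos {n : ℕ} (h : 1 < n) : 1 ≤ n.primeFactors.card := by
  rw [Nat.one_le_iff_ne_zero, Ne, card_eq_zero, Nat.primeFactors_eq_empty]
  omega

theorem fn_gt {n : ℕ} (h : Fn n) : 1 < n := by
  rcases h with ⟨-, h⟩ | ⟨m, h, -, h'⟩ <;> omega

theorem jac7_mod {D : ℕ} (h : jacobiSym D 7 = 1) : D % 7 = 1 ∨ D % 7 = 2 ∨ D % 7 = 4 := by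
  rw [jacobiSym.mod_left] at h
  have h1 : (D : ℤ) % ((7 : ℕ) : ℤ) = ((D % 7 : ℕ) : ℤ) := by omega
  rw [h1] at h
  have h2 := Nat.mod_lt D (show 0 < 7 by norm_num)
  interval_cases hx : D % 7
  · norm_num at h
  · omega
  · omega
  · norm_num at h
  · omega
  · norm_num at h
  · norm_num at h

theorem I7_co {D d : ℕ} (hd : d ∣ D) (h : jacobiSym D 7 = 1) : I7 d ↔ I7 (D / d) := by
  have h1 := jac7_mod h
  rw [← Nat.mul_div_cancel' hd, Nat.mul_mod] at h1
  unfold I7
  have h2 := Nat.mod_lt d (show 0 < 7 by norm_num)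
  have h3 := Nat.mod_lt (D / d) (show 0 < 7 by norm_num)
  interval_cases hx : d % 7 <;> interval_cases hy : (D / d) % 7 <;> omega

/-- the negative divisors, `7` split -/
theorem neg21 (hN : S_NEG21) (hR7 : S_R7) {D d : ℕ} (hD : R21 D) (hU : Un D d)
    (hs : sgd D d = -1) : Val (D.primeFactors.card - 1) (J 21 one D d 1 3) (En7 D d) := by
  obtain ⟨hF, h3, h7⟩ := hD
  have hD0 : D ≠ 0 := by have := hF.1; omega
  have hX := (hN D d (Or.inl ⟨hF, h3, h7⟩) hU hs).1
  have hU' := un_co hD0 hU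
  have hs' : sgd D (D / d) = -1 := by rw [sgd_inv hF hU, hs]
  have hA : Fn d := fn_neg hF hU hs
  have hB : Fn (D / d) := fn_neg hF hU'.1 hs'
  have h33 := mul_mod3 hU.1 h3
  have hw := card_co hU
  have hwA := w_pos (fn_gt hA)
  have hwB := w_pos (fn_gt hB)
  have h7m := jac7_mod h7
  have h7D : ¬ 7 ∣ D := by omega
  have h7A : ¬ 7 ∣ d := fun h => h7D (h.trans hU.1)
  have h7B : ¬ 7 ∣ D / d := fun h => h7D (h.trans hU'.1.1)
  by_cases hI : I7 d
  · have hIB : I7 (D / d) := (I7_co hU.1 h7).1 hI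
    by_cases hA4 : d = 4
    · subst hA4
      have hB4 := cop_four hU
      have hv := v7 hR7 hB hIB hB4 (by omega)
      rw [if_pos (by norm_num)] at hX
      have e4 : rr7 ((4 : ℕ)) = 2 := rr7_four
      rw [e4] at hX
      rw [card_four] at hw
      refine Val.congr ?_ (En7_four hU).symm
      have hk : D.primeFactors.card - 1 = (D / 4).primeFactors.card := by omega
      rw [hk]
      refine Val.shift (l := 1) ?_
      have e : (2 : ℤ) ^ 1 * J 21 one D 4 1 3 = rr7 (D / 4) := by linarith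
      rw [e]
      exact hv
    · by_cases hB4 : D / d = 4
      · have hv := v7 hR7 hA hI hA4 (by omega)
        rw [if_pos (by omega), hB4] at hX
        have e4 : rr7 4 = 2 := rr7_four
        rw [e4] at hX
        rw [hB4, card_four] at hw
        have hU4 : Un D 4 := by rw [← hB4]; exact hU'.1
        have ed : D / 4 = d := by rw [← hB4]; exact hU'.2
        have hE : QQ d ↔ En7 D d := by
          have h1 := En7_four hU4
          rw [ed] at h1
          rw [← h1, En7_comm hD0 hU4 h3, ed]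
        refine Val.congr ?_ hE
        have hk : D.primeFactors.card - 1 = d.primeFactors.card := by omega
        rw [hk]
        refine Val.shift (l := 1) ?_
        have e : (2 : ℤ) ^ 1 * J 21 one D d 1 3 = rr7 d := by linarith
        rw [e]
        exact hv
      · have hvA := v7 hR7 hA hI hA4 (by omega)
        have hvB := v7 hR7 hB hIB hB4 (by omega)
        have hv := hvA.mul hvB
        rcases h33 with ⟨h31, h32⟩ | ⟨h31, h32⟩
        · rw [if_pos h31] at hX
          refine Val.of_dvd ?_ ?_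
          · have hk : d.primeFactors.card + 1 + ((D / d).primeFactors.card + 1) =
                D.primeFactors.card + 2 := by omega
            rw [hk] at hv
            have e : rr7 d * rr7 (D / d) = 2 ^ 2 * J 21 one D d 1 3 := by linarith
            rw [e] at hv
            have := (Val.shift hv).dvd
            rwa [show D.primeFactors.card - 1 + 1 = D.primeFactors.card by omega]
          · rintro (⟨-, -, h, -⟩ | ⟨h, -⟩ | ⟨h, -⟩)
            · omega
            · exact hA4 h
            · exact hB4 h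
        · rw [if_neg (by omega)] at hX
          refine Val.congr (e := QQ d ∧ QQ (D / d)) ?_ ?_
          · have hk : d.primeFactors.card + 1 + ((D / d).primeFactors.card + 1) =
                D.primeFactors.card - 1 + 3 := by omega
            rw [hk] at hv
            have e : -(rr7 d * rr7 (D / d)) = 2 ^ 3 * J 21 one D d 1 3 := by linarith
            have hv' := hv.neg
            rw [e] at hv'
            exact Val.shift hv'
          · constructor
            · rintro ⟨h1, h2⟩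
              exact Or.inl ⟨hA, hB, h31, Or.inr hI, Or.inr hIB, h1, h2⟩
            · rintro (⟨-, -, -, -, -, h⟩ | ⟨h, -⟩ | ⟨h, -⟩)
              · exact h
              · exact absurd h hA4
              · exact absurd h hB4
  · have hIB : ¬ I7 (D / d) := fun h => hI ((I7_co hU.1 h7).2 h)
    rw [rr7_zero h7A hI, zero_mul, mul_zero] at hX
    have hX0 : J 21 one D d 1 3 = 0 := by omega
    rw [hX0]
    refine Val.zero _ ?_
    rintro (⟨-, -, -, h | h, -⟩ | ⟨h, -⟩ | ⟨h, -⟩)
    · exact h7A h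
    · exact hI h
    · exact hI (by rw [h]; unfold I7; norm_num)
    · exact hIB (by rw [h]; unfold I7; norm_num)

/-- the negative divisors, `7 ∣ D`, `7 ∤ d` -/
theorem neg21r' (hN : S_NEG21) (hR7 : S_R7) (hR7r : S_R7r) {D d : ℕ} (hD : R21r D) (hU : Un D d)
    (hs : sgd D d = -1) (h7A : ¬ 7 ∣ d) :
    Val (D.primeFactors.card - 2) (J 21 one D d 1 3) (En7 D d) := by
  obtain ⟨hF, h3, h7⟩ := hD
  have hD0 : D ≠ 0 := by have := hF.1; omega
  have hX := (hN D d (Or.inr ⟨hF, h3, h7⟩) hU hs).1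
  have hU' := un_co hD0 hU
  have hs' : sgd D (D / d) = -1 := by rw [sgd_inv hF hU, hs]
  have hA : Fn d := fn_neg hF hU hs
  have hB : Fn (D / d) := fn_neg hF hU'.1 hs'
  have h33 := mul_mod3 hU.1 h3
  have hw := card_co hU
  have hwA := w_pos (fn_gt hA)
  have hwB := w_pos (fn_gt hB)
  have h7B : 7 ∣ D / d := (dvd_co (by norm_num) h7 hU).2 h7A
  have hB4 : D / d ≠ 4 := by omega
  have hvB := v7r hR7r hB h7B
  by_cases hI : I7 d
  · by_cases hA4 : d = 4
    · subst hA4
      rw [if_pos (by norm_num)] at hX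
      have e4 : rr7 ((4 : ℕ)) = 2 := rr7_four
      rw [e4] at hX
      rw [card_four] at hw
      refine Val.congr ?_ (En7_four hU).symm
      have hk : (D / 4).primeFactors.card = D.primeFactors.card - 2 + 1 := by omega
      rw [hk] at hvB
      refine Val.shift (l := 1) ?_
      have e : (2 : ℤ) ^ 1 * J 21 one D 4 1 3 = rr7 (D / 4) := by linarith
      rw [e]
      exact hvB
    · have hvA := v7 hR7 hA hI hA4 (by omega)
      have hv := hvA.mul hvB
      rcases h33 with ⟨h31, h32⟩ | ⟨h31, h32⟩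
      · rw [if_pos h31] at hX
        refine Val.of_dvd ?_ ?_
        · have hk : d.primeFactors.card + 1 + (D / d).primeFactors.card =
              D.primeFactors.card - 1 + 2 := by omega
          rw [hk] at hv
          have e : rr7 d * rr7 (D / d) = 2 ^ 2 * J 21 one D d 1 3 := by linarith
          rw [e] at hv
          have := (Val.shift hv).dvd
          rwa [show D.primeFactors.card - 2 + 1 = D.primeFactors.card - 1 by omega]
        · rintro (⟨-, -, h, -⟩ | ⟨h, -⟩ | ⟨h, -⟩)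
          · omega
          · exact hA4 h
          · exact hB4 h
      · rw [if_neg (by omega)] at hX
        refine Val.congr (e := QQ d ∧ QQ (D / d)) ?_ ?_
        · have hk : d.primeFactors.card + 1 + (D / d).primeFactors.card =
              D.primeFactors.card - 2 + 3 := by omega
          rw [hk] at hv
          have e : -(rr7 d * rr7 (D / d)) = 2 ^ 3 * J 21 one D d 1 3 := by linarith
          have hv' := hv.neg
          rw [e] at hv'
          exact Val.shift hv'
        · constructor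
          · rintro ⟨h1, h2⟩
            exact Or.inl ⟨hA, hB, h31, Or.inr hI, Or.inl h7B, h1, h2⟩
          · rintro (⟨-, -, -, -, -, h⟩ | ⟨h, -⟩ | ⟨h, -⟩)
            · exact h
            · exact absurd h hA4
            · exact absurd h hB4
  · rw [rr7_zero h7A hI, zero_mul, mul_zero] at hX
    have hX0 : J 21 one D d 1 3 = 0 := by omega
    rw [hX0]
    refine Val.zero _ ?_
    rintro (⟨-, -, -, h | h, -⟩ | ⟨h, -⟩ | ⟨h, -⟩)
    · exact h7A h
    · exact hI h
    · exact hI (by rw [h]; unfold I7; norm_num)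
    · exact hB4 h

/-- the negative divisors, `7 ∣ D` -/
theorem neg21r (hN : S_NEG21) (hR7 : S_R7) (hR7r : S_R7r) {D d : ℕ} (hD : R21r D) (hU : Un D d)
    (hs : sgd D d = -1) :
    Val (D.primeFactors.card - 2) (J 21 one D d 1 3) (En7 D d) := by
  have hD0 : D ≠ 0 := by have := hD.1.1; omega
  by_cases h7A : 7 ∣ d
  · have hU' := un_co hD0 hU
    have hs' : sgd D (D / d) = -1 := by rw [sgd_inv hD.1 hU, hs]
    have h := neg21r' hN hR7 hR7r hD hU'.1 hs' fun h => (dvd_co (by norm_num) hD.2.2 hU).1 h h7A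
    rw [Pool.Agent.N975.RQ.t_SW 21 one D d 1 3 hD.1 hU] at h
    exact h.congr (En7_comm hD0 hU hD.2.1).symm
  · exact neg21r' hN hR7 hR7r hD hU hs h7A

/-! ### the positive divisors -/

theorem jac_tri {p : ℕ} (hp : p.Prime) {D d : ℕ} (hd : d ∣ D) (h : ¬ p ∣ D) :
    jacobiSym d p = 1 ∨ jacobiSym d p = -1 := by
  refine jacobiSym.eq_one_or_neg_one ?_
  rw [Int.gcd_natCast_natCast]
  exact ((Nat.Prime.coprime_iff_not_dvd hp).2 fun h1 => h (h1.trans hd)).symm

theorem jac3 {d : ℕ} : jacobiSym d 3 = if d % 3 = 1 then 1 else if d % 3 = 2 then -1 else 0 := by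
  rw [jacobiSym.mod_left]
  have h1 : (d : ℤ) % ((3 : ℕ) : ℤ) = ((d % 3 : ℕ) : ℤ) := by omega
  rw [h1]
  have h2 := Nat.mod_lt d (show 0 < 3 by norm_num)
  interval_cases hx : d % 3 <;> norm_num

theorem jac_co {p D d : ℕ} (hd : d ∣ D) :
    jacobiSym d p * jacobiSym (D / d : ℕ) p = jacobiSym D p := by
  rw [← jacobiSym.mul_left, ← Nat.cast_mul, Nat.mul_div_cancel' hd]

theorem fd4 : ¬ Fd 4 := by
  rintro ⟨-, ⟨-, h⟩ | ⟨M, h, -, h'⟩⟩ <;> omega

theorem not_En7 {D d : ℕ} (hD : D ≠ 0) (hU : Un D d) (h1 : Fd d) (h2 : Fd (D / d)) :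
    ¬ En7 D d := by
  rintro (⟨h3, h4, -⟩ | ⟨h, -⟩ | ⟨h, -⟩)
  · exact not_both hU hD h1 h2 h3 h4
  · rw [h] at h1
    exact fd4 h1
  · rw [h] at h2
    exact fd4 h2

theorem un_one {D : ℕ} : Un D 1 := ⟨one_dvd D, Nat.coprime_one_left _⟩

theorem J_self {N : ℕ} {w : ℤ → ℤ} {D : ℕ} (hD : Fd D) (x M : ℤ) : J N w D D x M = J N w D 1 x M := by
  have h := Pool.Agent.N975.RQ.t_SW N w D 1 x M hD un_one
  rwa [Nat.div_one] at h

theorem lt_co {D d : ℕ} (hD : D ≠ 0) (hU : Un D d) (h1 : d ≠ 1) (h2 : d ≠ D) :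
    d < D ∧ D / d < D ∧ D / d ≠ 1 ∧ D / d ≠ D := by
  have h3 := Nat.le_of_dvd (Nat.pos_of_ne_zero hD) hU.1
  have h4 := (un_co hD hU)
  have h5 := Nat.le_of_dvd (Nat.pos_of_ne_zero hD) h4.1.1
  have h6 : D / d ≠ 1 := fun h => by
    have := h4.2
    rw [h, Nat.div_one] at this
    exact h2 this.symm
  have h7 : D / d ≠ D := fun h => by
    have := h4.2
    rw [h, Nat.div_self (Nat.pos_of_ne_zero hD)] at this
    exact h1 this.symm
  exact ⟨lt_of_le_of_ne h3 h2, lt_of_le_of_ne h5 h7, h6, h7⟩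

/-- **the parity step, `7` split** -/
theorem par21 (hR7 : S_R7) (hF : S_FAC21) (cI : ℕ → Prop)
    (hJ : ∀ D d, R21 D → Un D d → sgd D d = 1 → Ai d → Ai (D / d) →
      Val (D.primeFactors.card - 1) (J 21 o7 D d 1 3) (cI d ∧ cI (D / d))) :
    ∀ D, R21 D → ∀ p, p.Prime → p ∣ D → Val (D.primeFactors.card - 1) (J 21 o3 D 1 1 3)
      (Odd (by classical exact
        ((ud D).filter fun d => p ∣ d ∧ d ≠ D ∧ (Ep7 cI D d ∨ En7 D d)).card)) := by
  intro D
  induction D using Nat.strong_induction_on with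
  | _ D ih =>
  intro hR p hp hpD
  have hR' := hR
  obtain ⟨hFd, h3, h7⟩ := hR'
  have hD0 : D ≠ 0 := by have := hFd.1; omega
  have hw := w_pos hFd.1
  have hf := core hD0 hp hpD (fun d => if sgd D d = 1 then J 21 o3 D d 1 3 + J 21 o7 D d 1 3
    else J 21 one D d 1 3 + J 21 (fun b => o3 b * o7 b) D d 1 3)
    (fun d => Ep7 cI D d ∨ En7 D d) (D.primeFactors.card - 1) ?_ ?_ ?_
  · have hs1 : sgd D D = 1 := Pool.Agent.N975.RQ.sgd_self hFd
    rw [if_pos hs1, J_self hFd, J_self hFd] at hf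
    have hV := (Pool.Agent.N975.RQ.t_VAN21 D 1 (Or.inl hR) un_one (by simp [sgd])).2 hR
      (Or.inl (by simp))
    rw [hV, add_zero] at hf
    convert hf
  · intro d hU
    rw [sgd_inv hFd hU, Pool.Agent.N975.RQ.t_SW _ _ _ _ _ _ hFd hU,
      Pool.Agent.N975.RQ.t_SW _ _ _ _ _ _ hFd hU, Pool.Agent.N975.RQ.t_SW _ _ _ _ _ _ hFd hU,
      Pool.Agent.N975.RQ.t_SW _ _ _ _ _ _ hFd hU]
  · rw [show D.primeFactors.card - 1 + 2 = D.primeFactors.card + 1 by omega]
    exact Pool.Agent.N855.RQ.t_INT21 D hR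
  · intro d hU h1 hdD
    have hU' := un_co hD0 hU
    obtain ⟨l1, l2, h1', hdD'⟩ := lt_co hD0 hU h1 hdD
    rcases sgd_pm hFd hU with hs | hs
    · rw [if_pos hs]
      have hs' : sgd D (D / d) = 1 := by rw [sgd_inv hFd hU, hs]
      have hA := fd_pos hFd hU hs h1
      have hB := fd_pos hFd hU'.1 hs' h1'
      have hnE := not_En7 hD0 hU hA hB
      have h3D : ¬ 3 ∣ D := by omega
      have h7D : ¬ 7 ∣ D := by have := jac7_mod h7; omega
      have hj3 := jac_tri (p := 3) (by norm_num) hU.1 h3D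
      have hj7 := jac_tri (p := 7) (by norm_num) hU.1 h7D
      have hc3 := jac_co (p := 3) hU.1
      have hc7 := jac_co (p := 7) hU.1
      have e3 : jacobiSym D 3 = 1 := by rw [jac3, if_pos h3]
      rw [e3] at hc3
      rw [h7] at hc7
      obtain ⟨hV1, hV2⟩ := Pool.Agent.N975.RQ.t_VAN21 D d (Or.inl hR) hU hs
      rcases hj3 with hj3 | hj3 <;> rcases hj7 with hj7 | hj7
      · -- `(1, 1)`
        rw [hj3, one_mul] at hc3
        rw [hj7, one_mul] at hc7
        rw [hV2 hR (Or.inl hj3), add_zero, hF D d (Or.inl hR) hU hs h1 hdD hj3 (by rw [hj7]; norm_num)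
          (by rw [hc7]; norm_num)]
        have m3 : d % 3 = 1 := by
          rw [jac3] at hj3
          split_ifs at hj3 <;> first | assumption | omega
        have m3' : (D / d) % 3 = 1 := by
          rcases mul_mod3 hU.1 h3 with h | h <;> omega
        have r1 : R21 d := ⟨hA, m3, hj7⟩
        have r2 : R21 (D / d) := ⟨hB, m3', hc7⟩
        have i1 := (ih d l1 r1 d.minFac (Nat.minFac_prime h1) (Nat.minFac_dvd d)).dvd
        have i2 := (ih (D / d) l2 r2 (D / d).minFac (Nat.minFac_prime h1') (Nat.minFac_dvd _)).dvd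
        refine Val.of_dvd ?_ ?_
        · have h4 := mul_dvd_mul i1 i2
          rw [← pow_add] at h4
          have h5 : (2 : ℤ) ^ (D.primeFactors.card - 1 + 1) = 4 * 2 ^ (d.primeFactors.card - 1 +
              ((D / d).primeFactors.card - 1)) := by
            have hw1 := w_pos hA.1
            have hw2 := w_pos hB.1
            have hw3 := card_co hU
            rw [show D.primeFactors.card - 1 + 1 = 2 + (d.primeFactors.card - 1 +
              ((D / d).primeFactors.card - 1)) by omega, pow_add]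
            norm_num
          rw [h5, neg_mul]
          exact (mul_dvd_mul_left 4 h4).neg_right
        · rintro (h | h)
          · have := h.1.2.1
            omega
          · exact hnE h
      · -- `(1, -1)`
        rw [hV1 (Or.inr hj7), hV2 hR (Or.inl hj3), add_zero]
        refine Val.zero _ ?_
        rintro (h | h)
        · have := h.1.2.1
          rw [jac3] at hj3
          split_ifs at hj3 <;> omega
        · exact hnE h
      · -- `(-1, 1)`
        rw [hV1 (Or.inl hj3), hV2 hR (Or.inr hj7), add_zero]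
        refine Val.zero _ ?_
        rintro (h | h)
        · have := h.1.2.2
          rw [hj7] at this
          norm_num at this
        · exact hnE h
      · -- `(-1, -1)`
        rw [hV1 (Or.inl hj3), zero_add]
        rw [hj3] at hc3
        rw [hj7] at hc7
        have m3 : d % 3 = 2 := by
          rw [jac3] at hj3
          split_ifs at hj3 <;> first | assumption | omega
        have m3' : (D / d) % 3 = 2 := by
          rcases mul_mod3 hU.1 h3 with h | h <;> omega
        have aA : Ai d := ⟨hA, m3, hj7⟩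
        have aB : Ai (D / d) := ⟨hB, m3', by linarith⟩
        refine (hJ D d hR hU hs aA aB).congr ?_
        constructor
        · intro h
          exact Or.inl ⟨aA, aB, h⟩
        · rintro (h | h)
          · exact h.2.2
          · exact absurd h hnE
    · rw [if_neg (by rw [hs]; norm_num), (Pool.Agent.N970.RQ.t_NEG21 D d (Or.inl hR) hU hs).2 hR,
        add_zero]
      refine (neg21 Pool.Agent.N970.RQ.t_NEG21 hR7 hR hU hs).congr ?_
      refine ⟨Or.inr, ?_⟩
      rintro (h | h)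
      · exfalso
        exact not_both hU hD0 h.1.1 h.2.1.1 (fn_neg hFd hU hs)
          (fn_neg hFd hU'.1 (by rw [sgd_inv hFd hU, hs]))
      · exact h

/-- **the parity step, `7 ∣ D`** -/
theorem par21r (hR7 : S_R7) (hR7r : S_R7r) (hF : S_FAC21)
    (hP : ∀ D, R21 D → (2 : ℤ) ^ (D.primeFactors.card - 1) ∣ J 21 o3 D 1 1 3) :
    ∀ D, R21r D → ∀ p, p.Prime → p ∣ D → Val (D.primeFactors.card - 2) (J 21 o3 D 1 1 3)
      (Odd (by classical exact
        ((ud D).filter fun d => p ∣ d ∧ d ≠ D ∧ En7 D d).card)) := by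
  intro D
  induction D using Nat.strong_induction_on with
  | _ D ih =>
  intro hR p hp hpD
  have hR' := hR
  obtain ⟨hFd, h3, h7⟩ := hR'
  have hD0 : D ≠ 0 := by have := hFd.1; omega
  have w2 : ∀ D, R21r D → 2 ≤ D.primeFactors.card := by
    intro D hR
    obtain ⟨hFd, h3, h7⟩ := hR
    have hD0 : D ≠ 0 := by have := hFd.1; omega
    have hm : 7 ∈ D.primeFactors := Nat.mem_primeFactors.2 ⟨by norm_num, h7, hD0⟩
    by_contra h
    have h1 : D.primeFactors.card = 1 := by
      have := card_pos.2 ⟨7, hm⟩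
      omega
    obtain ⟨a, ha⟩ := card_eq_one.1 h1
    have h2 : D.primeFactors = {7} := by
      rw [ha] at hm ⊢
      rw [mem_singleton.1 hm]
    rcases hFd.2 with ⟨h4, h5⟩ | ⟨M, h4, -⟩
    · have := Nat.prod_primeFactors_of_squarefree h4
      rw [h2, prod_singleton] at this
      omega
    · have : 2 ∈ D.primeFactors := Nat.mem_primeFactors.2 ⟨Nat.prime_two, ⟨2 * M, by rw [h4]; ring⟩, hD0⟩
      rw [h2, mem_singleton] at this
      norm_num at this
  have hw := w2 D hR
  have hf := core hD0 hp hpD (fun d => if sgd D d = 1 then J 21 o3 D d 1 3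
    else J 21 one D d 1 3)
    (fun d => En7 D d) (D.primeFactors.card - 2) ?_ ?_ ?_
  · have hs1 : sgd D D = 1 := Pool.Agent.N975.RQ.sgd_self hFd
    rw [if_pos hs1, J_self hFd] at hf
    convert hf
  · intro d hU
    rw [sgd_inv hFd hU, Pool.Agent.N975.RQ.t_SW _ _ _ _ _ _ hFd hU,
      Pool.Agent.N975.RQ.t_SW _ _ _ _ _ _ hFd hU]
  · rw [show D.primeFactors.card - 2 + 2 = D.primeFactors.card by omega]
    exact Pool.Agent.N855.RQ.t_INT21r D hR
  · -- the positive divisors prime to `7`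
    have key : ∀ d, Un D d → d ≠ 1 → d ≠ D → sgd D d = 1 → ¬ 7 ∣ d →
        Val (D.primeFactors.card - 2) (J 21 o3 D d 1 3) (En7 D d) := by
      intro d hU h1 hdD hs h7A
      have hU' := un_co hD0 hU
      obtain ⟨l1, l2, h1', hdD'⟩ := lt_co hD0 hU h1 hdD
      have hs' : sgd D (D / d) = 1 := by rw [sgd_inv hFd hU, hs]
      have hA := fd_pos hFd hU hs h1
      have hB := fd_pos hFd hU'.1 hs' h1'
      have hnE := not_En7 hD0 hU hA hB
      have h7B : 7 ∣ D / d := (dvd_co (by norm_num) h7 hU).2 h7A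
      have h3D : ¬ 3 ∣ D := by omega
      have hj3 := jac_tri (p := 3) (by norm_num) hU.1 h3D
      have hj7 : jacobiSym d 7 = 1 ∨ jacobiSym d 7 = -1 := jac_tri (by norm_num) dvd_rfl h7A
      obtain ⟨hV1, -⟩ := Pool.Agent.N975.RQ.t_VAN21 D d (Or.inr hR) hU hs
      rcases hj3 with hj3 | hj3
      · rcases hj7 with hj7 | hj7
        · have hz : jacobiSym (D / d : ℕ) 7 = 0 := by
            obtain ⟨t, ht⟩ := h7B
            rw [ht, jacobiSym.mod_left]
            simp
            norm_num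
          rw [hF D d (Or.inr hR) hU hs h1 hdD hj3 (by rw [hj7]; norm_num) (by rw [hz]; norm_num)]
          have m3 : d % 3 = 1 := by
            rw [jac3] at hj3
            split_ifs at hj3 <;> first | assumption | omega
          have m3' : (D / d) % 3 = 1 := by
            rcases mul_mod3 hU.1 h3 with h | h <;> omega
          have r1 : R21 d := ⟨hA, m3, hj7⟩
          have r2 : R21r (D / d) := ⟨hB, m3', h7B⟩
          have i1 := hP d r1
          have i2 := (ih (D / d) l2 r2 (D / d).minFac (Nat.minFac_prime h1') (Nat.minFac_dvd _)).dvd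
          refine Val.of_dvd ?_ hnE
          have h4 := mul_dvd_mul i1 i2
          rw [← pow_add] at h4
          have h5 : (2 : ℤ) ^ (D.primeFactors.card - 2 + 1) = 4 * 2 ^ (d.primeFactors.card - 1 +
              ((D / d).primeFactors.card - 2)) := by
            have hw1 := w_pos hA.1
            have hw2 := w2 _ r2
            have hw3 := card_co hU
            rw [show D.primeFactors.card - 2 + 1 = 2 + (d.primeFactors.card - 1 +
              ((D / d).primeFactors.card - 2)) by omega, pow_add]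
            norm_num
          rw [h5, neg_mul]
          exact (mul_dvd_mul_left 4 h4).neg_right
        · rw [hV1 (Or.inr hj7)]
          exact Val.zero _ hnE
      · rw [hV1 (Or.inl hj3)]
        exact Val.zero _ hnE
    intro d hU h1 hdD
    have hU' := un_co hD0 hU
    obtain ⟨l1, l2, h1', hdD'⟩ := lt_co hD0 hU h1 hdD
    rcases sgd_pm hFd hU with hs | hs
    · rw [if_pos hs]
      by_cases h7A : 7 ∣ d
      · have h := key (D / d) hU'.1 h1' hdD' (by rw [sgd_inv hFd hU, hs]) fun h =>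
          (dvd_co (by norm_num) h7 hU).1 h h7A
        rw [Pool.Agent.N975.RQ.t_SW 21 o3 D d 1 3 hFd hU] at h
        exact h.congr (En7_comm hD0 hU h3).symm
      · exact key d hU h1 hdD hs h7A
    · rw [if_neg (by rw [hs]; norm_num)]
      exact neg21r Pool.Agent.N970.RQ.t_NEG21 hR7 hR7r hR hU hs

/-- the crossing numbers with the orientation at `7` from the constants of the classes `Ai` -/
theorem hJ21 (hFn : S_FAC21n) (cI : ℕ → Prop)
    (hI : ∀ A, Ai A → ∃ (c : ℚ) (y : ℤ), (∀ m : ℕ, Nat.Coprime A m → K0 m →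
      (P7 A (A * m) : ℚ) = c * (N877.P21.cc m : ℚ) ^ 2) ∧
      9 * c = 4 ^ A.primeFactors.card * (y : ℚ) ^ 2 ∧ (Odd y ↔ cI A)) :
    ∀ D d, R21 D → Un D d → sgd D d = 1 → Ai d → Ai (D / d) →
      Val (D.primeFactors.card - 1) (J 21 o7 D d 1 3) (cI d ∧ cI (D / d)) := by
  intro D d hR hU hs hA hB
  obtain ⟨c, y, h1, h2, h3⟩ := hI d hA
  obtain ⟨c', y', h1', h2', h3'⟩ := hI (D / d) hB
  have h := hFn D d hR hU hs hA hB c c' h1 h1'
  have hw := card_co hU
  have hwD := w_pos hR.1.1
  have e : (J 21 o7 D d 1 3 : ℚ) ^ 2 = ((2 : ℚ) ^ (D.primeFactors.card - 1) * (y * y')) ^ 2 := by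
    have e1 : 4 * (J 21 o7 D d 1 3 : ℚ) ^ 2 = (9 * c) * (9 * c') := by rw [h]; ring
    rw [h2, h2'] at e1
    have e2 : (4 : ℚ) ^ d.primeFactors.card * 4 ^ (D / d).primeFactors.card =
        4 * (2 ^ (D.primeFactors.card - 1)) ^ 2 := by
      rw [← pow_add, hw, ← pow_mul, mul_comm (D.primeFactors.card - 1) 2, pow_mul]
      conv_lhs => rw [show D.primeFactors.card = D.primeFactors.card - 1 + 1 by omega, pow_succ]
      norm_num
      ring
    have e3 : 4 * (J 21 o7 D d 1 3 : ℚ) ^ 2 =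
        4 * ((2 : ℚ) ^ (D.primeFactors.card - 1) * (y * y')) ^ 2 := by
      rw [e1]
      calc _ = ((4 : ℚ) ^ d.primeFactors.card * 4 ^ (D / d).primeFactors.card) * (y * y') ^ 2 := by ring
        _ = _ := by rw [e2]; ring
    linarith
  have e4 : (J 21 o7 D d 1 3) ^ 2 = ((2 : ℤ) ^ (D.primeFactors.card - 1) * (y * y')) ^ 2 := by
    exact_mod_cast e
  have hodd : Odd (y * y') ↔ cI d ∧ cI (D / d) := by rw [Int.odd_mul, h3, h3']
  rcases sq_eq_sq_iff_eq_or_eq_neg.1 e4 with h5 | h5
  · exact ⟨y * y', h5, hodd⟩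
  · exact ⟨-(y * y'), by rw [h5]; ring, by rw [odd_neg]; exact hodd⟩

end Pool.Agent.N855.RQp
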