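import Pool.Agent.N973.P15G.Defs
import Pool.Agent.N969.RQ.Defs5
import Pool.Agent.N969.RQ.Defs6
import Pool.Agent.N971.RQ.Neg15
import Pool.Agent.N855.RQ.Par21
import Pool.Agent.N855.RQ.Int15

/-!
# The parity step at level `15`
-/

set_option autoImplicit false

namespace Pool.Agent.N855.RQp

open Finset
open Pool.Agent.N969.RQ
open Pool.Agent.N969.P15 (Ev Qc Qe)
open Pool.Agent.N877.P21G (Fn QQ)
open Pool.Agent.N973.P15G (Aii)

/-! ### the numbers of vectors -/

/-- the parity statements for the two lattices -/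
structure RR : Prop where
  r5 : Pool.Agent.N969.P15.S_R
  r5E : Pool.Agent.N969.P15.S_RE
  r3 : Pool.Agent.N877.P21.S_R
  r3E : Pool.Agent.N877.P21.S_RE
  r33 : Pool.Agent.N877.P21.S_R3
  r33E : Pool.Agent.N877.P21.S_R3E

theorem qq_odd {n : ℕ} (h : n % 4 = 3) : QQ n ↔ Qc n := by
  unfold QQ
  rw [if_neg (by omega)]

theorem qq_even {n : ℕ} (h : Ev n) : QQ n ↔ Qe n := by
  obtain ⟨m, h, -⟩ := h
  unfold QQ
  rw [if_pos (by omega)]

theorem rr5_three : Pool.Agent.N969.P15.rr 3 = 2 := by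
  unfold Pool.Agent.N969.P15.rr
  decide +kernel

theorem rr3_four : Pool.Agent.N877.P21.rr 4 = 6 := by
  unfold Pool.Agent.N877.P21.rr
  decide +kernel

theorem qc_three : Qc 3 := by
  intro b c h _ _
  rcases (Nat.dvd_prime Nat.prime_three).1 (Dvd.intro c h) with h1 | h1
  · exact Or.inl h1
  · subst h1
    right
    omega

theorem v5 (H : RR) {n : ℕ} (hn : Fn n) (h5 : n % 5 = 2 ∨ n % 5 = 3) :
    Val n.primeFactors.card (Pool.Agent.N969.P15.rr n) (QQ n) := by
  rcases hn with ⟨h1, h2⟩ | h1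
  · by_cases h3 : n = 3
    · subst h3
      rw [Nat.Prime.primeFactors Nat.prime_three, card_singleton]
      have e : Pool.Agent.N969.P15.rr ((3 : ℕ) : ℤ) = 2 := rr5_three
      rw [e]
      exact ⟨1, by norm_num, iff_of_true odd_one ((qq_odd (by norm_num)).2 qc_three)⟩
    · obtain ⟨g, h4, h6⟩ := H.r5 n h1 h2 h5 (by omega)
      exact ⟨g, h4, h6.trans (qq_odd h2).symm⟩
  · obtain ⟨g, h4, h6⟩ := H.r5E n h1 h5
    exact ⟨g, h4, h6.trans (qq_even h1).symm⟩

theorem v3 (H : RR) {n : ℕ} (hn : Fn n) (h3 : n % 3 = 1) (h4 : n ≠ 4) :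
    Val (n.primeFactors.card + 1) (Pool.Agent.N877.P21.rr n) (QQ n) := by
  rcases hn with ⟨h1, h2⟩ | h1
  · obtain ⟨g, h5, h6⟩ := H.r3 n h1 h2 h3
    exact ⟨g, h5, h6.trans (qq_odd h2).symm⟩
  · obtain ⟨g, h5, h6⟩ := H.r3E n h1 h3 (by obtain ⟨m, h7, -, h8⟩ := h1; omega)
    exact ⟨g, h5, h6.trans (qq_even h1).symm⟩

theorem v33 (H : RR) {n : ℕ} (hn : Fn n) (h3 : 3 ∣ n) :
    Val n.primeFactors.card (Pool.Agent.N877.P21.rr n) (QQ n) := by
  rcases hn with ⟨h1, h2⟩ | h1
  · obtain ⟨g, h5, h6⟩ := H.r33 n h1 h2 h3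
    exact ⟨g, h5, h6.trans (qq_odd h2).symm⟩
  · obtain ⟨g, h5, h6⟩ := H.r33E n h1 h3
    exact ⟨g, h5, h6.trans (qq_even h1).symm⟩

theorem rr3_zero {n : ℕ} (h : n % 3 = 2) : Pool.Agent.N877.P21.rr n = 0 := by
  unfold Pool.Agent.N877.P21.rr Pool.Agent.N877.P21.vec
  rw [Nat.cast_eq_zero, card_eq_zero, filter_eq_empty_iff]
  intro v _ h0
  unfold Pool.Agent.N877.P21.ip at h0
  have h1 : (v 1 - v 2) ^ 2 + 3 * (v 0 ^ 2 + v 1 ^ 2 + v 2 ^ 2 + 2 * (v 1 * v 2)) = n := by linarith
  have h2 : ((v 1 - v 2) ^ 2) % 3 = (n : ℤ) % 3 := by omega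
  have h3 : ((v 1 - v 2) ^ 2) % 3 = 0 ∨ ((v 1 - v 2) ^ 2) % 3 = 1 := by
    rw [pow_two, Int.mul_emod]
    have h4 := Int.emod_nonneg (v 1 - v 2) (show (3 : ℤ) ≠ 0 by norm_num)
    have h5 := Int.emod_lt_of_pos (v 1 - v 2) (show (0 : ℤ) < 3 by norm_num)
    generalize (v 1 - v 2) % 3 = r at h4 h5 ⊢
    interval_cases r <;> simp
  omega

/-! ### the conditions -/

/-- a pair of negative discriminants -/
def En5 (D d : ℕ) : Prop := (Fn d ∧ Fn (D / d) ∧ (d % 5 = 2 ∨ d % 5 = 3) ∧
  ((D / d) % 5 = 2 ∨ (D / d) % 5 = 3) ∧ QQ d ∧ QQ (D / d)) ∨ (d = 4 ∧ QQ (D / d)) ∨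
    (D / d = 4 ∧ QQ d)

theorem En5_symm {D d : ℕ} (hD : D ≠ 0) (hU : Un D d) (h : En5 D d) : En5 D (D / d) := by
  have e := (un_co hD hU).2
  unfold En5 at h ⊢
  rw [e]
  rcases h with ⟨h1, h2, h3, h4, h6, h7⟩ | h | h
  · exact Or.inl ⟨h2, h1, h4, h3, h7, h6⟩
  · exact Or.inr (Or.inr h)
  · exact Or.inr (Or.inl h)

theorem En5_comm {D d : ℕ} (hD : D ≠ 0) (hU : Un D d) : En5 D d ↔ En5 D (D / d) := by
  refine ⟨En5_symm hD hU, fun h => ?_⟩
  have := En5_symm hD (un_co hD hU).1 h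
  rwa [(un_co hD hU).2] at this

theorem En5_four {D : ℕ} (hU : Un D 4) : En5 D 4 ↔ QQ (D / 4) := by
  unfold En5
  constructor
  · rintro (⟨-, -, h, -⟩ | ⟨-, h⟩ | ⟨h, -⟩)
    · norm_num at h
    · exact h
    · exact absurd h (cop_four hU)
  · intro h
    exact Or.inr (Or.inl ⟨rfl, h⟩)

theorem jac5 {d : ℕ} : (jacobiSym d 5 = 1 ↔ d % 5 = 1 ∨ d % 5 = 4) ∧
    (jacobiSym d 5 = -1 ↔ d % 5 = 2 ∨ d % 5 = 3) := by
  rw [jacobiSym.mod_left]
  have h1 : (d : ℤ) % ((5 : ℕ) : ℤ) = ((d % 5 : ℕ) : ℤ) := by omega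
  rw [h1]
  have h2 := Nat.mod_lt d (show 0 < 5 by norm_num)
  interval_cases hx : d % 5 <;> norm_num

/-- the residues modulo `5` of the two divisors -/
theorem mod5_co {D d : ℕ} (hd : d ∣ D) (h : jacobiSym D 5 = 1) :
    ((d % 5 = 1 ∨ d % 5 = 4) ∧ ((D / d) % 5 = 1 ∨ (D / d) % 5 = 4)) ∨
    ((d % 5 = 2 ∨ d % 5 = 3) ∧ ((D / d) % 5 = 2 ∨ (D / d) % 5 = 3)) := by
  have h1 := jac5.1.1 h
  rw [← Nat.mul_div_cancel' hd, Nat.mul_mod] at h1
  have h2 := Nat.mod_lt d (show 0 < 5 by norm_num)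
  have h3 := Nat.mod_lt (D / d) (show 0 < 5 by norm_num)
  interval_cases hx : d % 5 <;> interval_cases hy : (D / d) % 5 <;> omega

/-- the negative divisors, `3` split -/
theorem neg15 (H : RR) {D d : ℕ} (hD : R15 D) (hU : Un D d)
    (hs : sgd D d = -1) :
    Val (D.primeFactors.card - 1) (J 15 one D d 1 3 + J 15 one D d 0 1) (En5 D d) := by
  obtain ⟨hF, h3, h5⟩ := hD
  have hD0 : D ≠ 0 := by have := hF.1; omega
  have hX := (Pool.Agent.N971.RQ.t_NEG15 D d ⟨hF, h3, h5⟩ hU hs).1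
  set X := J 15 one D d 1 3 + J 15 one D d 0 1 with hXdef
  have hU' := un_co hD0 hU
  have hs' : sgd D (D / d) = -1 := by rw [sgd_inv hF hU, hs]
  have hA : Fn d := fn_neg hF hU hs
  have hB : Fn (D / d) := fn_neg hF hU'.1 hs'
  have h33 := mul_mod3 hU.1 h3
  have h55 := mod5_co hU.1 h5
  have hw := card_co hU
  have hwA := w_pos (fn_gt hA)
  have hwB := w_pos (fn_gt hB)
  by_cases hj : jacobiSym d 5 = -1
  · have m5 := jac5.2.1 hj
    rw [if_pos hj] at hX
    have hv := (v5 H hA m5).mul (v5 H hB (by omega))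
    refine Val.congr (e := QQ d ∧ QQ (D / d)) ?_ ?_
    · refine Val.div (m := 3) (by decide) (Val.shift (l := 1) ?_)
      rw [show D.primeFactors.card - 1 + 1 = d.primeFactors.card + (D / d).primeFactors.card by omega]
      by_cases h31 : d % 3 = 1
      · rw [if_pos h31] at hX
        rw [show (2 : ℤ) ^ 1 * (3 * X) =
          Pool.Agent.N969.P15.rr d * Pool.Agent.N969.P15.rr (D / d : ℕ) by linarith]
        exact hv
      · rw [if_neg h31] at hX
        rw [show (2 : ℤ) ^ 1 * (3 * X) =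
          -(Pool.Agent.N969.P15.rr d * Pool.Agent.N969.P15.rr (D / d : ℕ)) by linarith]
        exact hv.neg
    · constructor
      · rintro ⟨h1, h2⟩
        exact Or.inl ⟨hA, hB, m5, by omega, h1, h2⟩
      · rintro (⟨-, -, -, -, h⟩ | ⟨h, -⟩ | ⟨h, -⟩)
        · exact h
        · omega
        · omega
  · rw [if_neg hj] at hX
    have m5 : ¬ (d % 5 = 2 ∨ d % 5 = 3) := fun h => hj (jac5.2.2 h)
    rcases h33 with ⟨h31, h32⟩ | ⟨h31, h32⟩
    · by_cases hA4 : d = 4
      · subst hA4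
        have hB4 := cop_four hU
        have hv := v3 H hB h32 hB4
        have e4 : Pool.Agent.N877.P21.rr ((4 : ℕ) : ℤ) = 6 := rr3_four
        rw [e4] at hX
        rw [card_four] at hw
        refine Val.congr ?_ (En5_four hU).symm
        refine Val.div (m := 3) (by decide) (Val.shift (l := 1) ?_)
        rw [show D.primeFactors.card - 1 + 1 = (D / 4).primeFactors.card + 1 by omega,
          show (2 : ℤ) ^ 1 * (3 * X) = -Pool.Agent.N877.P21.rr (D / 4 : ℕ) by linarith]
        exact hv.neg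
      · by_cases hB4 : D / d = 4
        · have hv := v3 H hA h31 hA4
          have e4 : Pool.Agent.N877.P21.rr (((4 : ℕ) : ℕ) : ℤ) = 6 := rr3_four
          rw [hB4, e4] at hX
          rw [hB4, card_four] at hw
          have hU4 : Un D 4 := by rw [← hB4]; exact hU'.1
          have ed : D / 4 = d := by rw [← hB4]; exact hU'.2
          have hE : QQ d ↔ En5 D d := by
            have h1 := En5_four hU4
            rw [ed] at h1
            rw [← h1, En5_comm hD0 hU4, ed]
          refine Val.congr ?_ hE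
          refine Val.div (m := 3) (by decide) (Val.shift (l := 1) ?_)
          rw [show D.primeFactors.card - 1 + 1 = d.primeFactors.card + 1 by omega,
            show (2 : ℤ) ^ 1 * (3 * X) = -Pool.Agent.N877.P21.rr d by linarith]
          exact hv.neg
        · have hv := ((v3 H hA h31 hA4).mul (v3 H hB h32 hB4)).neg
          refine Val.of_dvd ?_ ?_
          · have h1 : Val D.primeFactors.card (9 * X) (QQ d ∧ QQ (D / d)) := by
              refine Val.shift (l := 2) ?_
              rw [show D.primeFactors.card + 2 = d.primeFactors.card + 1 +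
                ((D / d).primeFactors.card + 1) by omega, show (2 : ℤ) ^ 2 * (9 * X) =
                -(Pool.Agent.N877.P21.rr d * Pool.Agent.N877.P21.rr (D / d : ℕ)) by linarith]
              exact hv
            have := (Val.div (m := 9) (by decide) h1).dvd
            rwa [show D.primeFactors.card - 1 + 1 = D.primeFactors.card by omega]
          · rintro (⟨-, -, h, -⟩ | ⟨h, -⟩ | ⟨h, -⟩)
            · exact m5 h
            · exact hA4 h
            · exact hB4 h
    · rw [rr3_zero h31, zero_mul, neg_zero] at hX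
      have hX0 : X = 0 := by omega
      rw [hX0]
      refine Val.zero _ ?_
      rintro (⟨-, -, h, -⟩ | ⟨h, -⟩ | ⟨h, -⟩)
      · exact m5 h
      · omega
      · omega

/-- the negative divisors, `3 ∣ D`, `3 ∤ d` -/
theorem neg15r' (H : RR) {D d : ℕ} (hD : R15r D) (hU : Un D d)
    (hs : sgd D d = -1) (h3A : ¬ 3 ∣ d) :
    Val (D.primeFactors.card - 2) (J 15 one D d 1 3 + J 15 one D d 0 1) (En5 D d) := by
  obtain ⟨hF, h3, h5⟩ := hD
  have hD0 : D ≠ 0 := by have := hF.1; omega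
  have hX := Pool.Agent.N971.RQ.t_NEG15r D d ⟨hF, h3, h5⟩ hU hs h3A
  set X := J 15 one D d 1 3 + J 15 one D d 0 1 with hXdef
  have hU' := un_co hD0 hU
  have hs' : sgd D (D / d) = -1 := by rw [sgd_inv hF hU, hs]
  have hA : Fn d := fn_neg hF hU hs
  have hB : Fn (D / d) := fn_neg hF hU'.1 hs'
  have h3B : 3 ∣ D / d := (dvd_co (by norm_num) h3 hU).2 h3A
  have h55 := mod5_co hU.1 h5
  have hw := card_co hU
  have hwA := w_pos (fn_gt hA)
  have hwB := w_pos (fn_gt hB)
  have hB4 : D / d ≠ 4 := by omega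
  by_cases hj : jacobiSym d 5 = -1
  · have m5 := jac5.2.1 hj
    rw [if_pos hj] at hX
    have hv := (v5 H hA m5).mul (v5 H hB (by omega))
    refine Val.congr (e := QQ d ∧ QQ (D / d)) ?_ ?_
    · refine Val.div (m := 3) (by decide) (Val.shift (l := 2) ?_)
      rw [show D.primeFactors.card - 2 + 2 = d.primeFactors.card + (D / d).primeFactors.card by omega]
      by_cases h31 : d % 3 = 1
      · rw [if_pos h31] at hX
        rw [show (2 : ℤ) ^ 2 * (3 * X) =
          Pool.Agent.N969.P15.rr d * Pool.Agent.N969.P15.rr (D / d : ℕ) by linarith]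
        exact hv
      · rw [if_neg h31] at hX
        rw [show (2 : ℤ) ^ 2 * (3 * X) =
          -(Pool.Agent.N969.P15.rr d * Pool.Agent.N969.P15.rr (D / d : ℕ)) by linarith]
        exact hv.neg
    · constructor
      · rintro ⟨h1, h2⟩
        exact Or.inl ⟨hA, hB, m5, by omega, h1, h2⟩
      · rintro (⟨-, -, -, -, h⟩ | ⟨h, -⟩ | ⟨h, -⟩)
        · exact h
        · omega
        · omega
  · rw [if_neg hj] at hX
    have m5 : ¬ (d % 5 = 2 ∨ d % 5 = 3) := fun h => hj (jac5.2.2 h)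
    have h33 : d % 3 = 1 ∨ d % 3 = 2 := by omega
    have hvB := v33 H hB h3B
    rcases h33 with h31 | h31
    · by_cases hA4 : d = 4
      · subst hA4
        have e4 : Pool.Agent.N877.P21.rr ((4 : ℕ) : ℤ) = 6 := rr3_four
        rw [e4] at hX
        rw [card_four] at hw
        refine Val.congr ?_ (En5_four hU).symm
        refine Val.div (m := 3) (by decide) (Val.shift (l := 1) ?_)
        rw [show D.primeFactors.card - 2 + 1 = (D / 4).primeFactors.card by omega,
          show (2 : ℤ) ^ 1 * (3 * X) = -Pool.Agent.N877.P21.rr (D / 4 : ℕ) by linarith]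
        exact hvB.neg
      · have hv := ((v3 H hA h31 hA4).mul hvB).neg
        refine Val.of_dvd ?_ ?_
        · have h1 : Val (D.primeFactors.card - 1) (9 * X) (QQ d ∧ QQ (D / d)) := by
            refine Val.shift (l := 2) ?_
            rw [show D.primeFactors.card - 1 + 2 = d.primeFactors.card + 1 +
              (D / d).primeFactors.card by omega, show (2 : ℤ) ^ 2 * (9 * X) =
              -(Pool.Agent.N877.P21.rr d * Pool.Agent.N877.P21.rr (D / d : ℕ)) by linarith]
            exact hv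
          have := (Val.div (m := 9) (by decide) h1).dvd
          rwa [show D.primeFactors.card - 2 + 1 = D.primeFactors.card - 1 by omega]
        · rintro (⟨-, -, h, -⟩ | ⟨h, -⟩ | ⟨h, -⟩)
          · exact m5 h
          · exact hA4 h
          · exact hB4 h
    · rw [rr3_zero h31, zero_mul, neg_zero] at hX
      have hX0 : X = 0 := by omega
      rw [hX0]
      refine Val.zero _ ?_
      rintro (⟨-, -, h, -⟩ | ⟨h, -⟩ | ⟨h, -⟩)
      · exact m5 h
      · omega
      · exact hB4 h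

/-- the negative divisors, `3 ∣ D` -/
theorem neg15r (H : RR) {D d : ℕ} (hD : R15r D) (hU : Un D d) (hs : sgd D d = -1) :
    Val (D.primeFactors.card - 2) (J 15 one D d 1 3 + J 15 one D d 0 1) (En5 D d) := by
  have hD0 : D ≠ 0 := by have := hD.1.1; omega
  by_cases h3A : 3 ∣ d
  · have hU' := un_co hD0 hU
    have hs' : sgd D (D / d) = -1 := by rw [sgd_inv hD.1 hU, hs]
    have h := neg15r' H hD hU'.1 hs' fun h => (dvd_co (by norm_num) hD.2.1 hU).1 h h3A
    rw [Pool.Agent.N975.RQ.t_SW 15 one D d 1 3 hD.1 hU,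
      Pool.Agent.N975.RQ.t_SW 15 one D d 0 1 hD.1 hU] at h
    exact h.congr (En5_comm hD0 hU).symm
  · exact neg15r' H hD hU hs h3A

/-! ### the positive divisors -/

theorem not_En5 {D d : ℕ} (hD : D ≠ 0) (hU : Un D d) (h1 : Fd d) (h2 : Fd (D / d)) :
    ¬ En5 D d := by
  rintro (⟨h3, h4, -⟩ | ⟨h, -⟩ | ⟨h, -⟩)
  · exact not_both hU hD h1 h2 h3 h4
  · rw [h] at h1
    exact fd4 h1
  · rw [h] at h2
    exact fd4 h2

theorem ps_fd {A : ℕ} (h : Fd A) : Pool.Agent.N973.P15G.Ps A := by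
  obtain ⟨h1, h2 | h2⟩ := h
  · exact Or.inl ⟨h2.1, h2.2, h1⟩
  · exact Or.inr h2

theorem fd_ps {A : ℕ} (h : Pool.Agent.N973.P15G.Ps A) : Fd A := by
  rcases h with h2 | h2
  · exact ⟨h2.2.2, Or.inl ⟨h2.1, h2.2.1⟩⟩
  · refine ⟨?_, Or.inr h2⟩
    obtain ⟨M, h, -, h'⟩ := h2
    omega

/-- **the parity step, `3` split** -/
theorem par15 (H : RR) (hF : S_FAC15c)
    (hJ : ∀ D d, R15 D → Un D d → sgd D d = 1 → Aii d → Aii (D / d) →
      (2 : ℤ) ^ D.primeFactors.card ∣ J 15 o3 D d 1 3) :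
    ∀ D, R15 D → ∀ p, p.Prime → p ∣ D → Val (D.primeFactors.card - 1) (J 15 o5 D 1 1 3)
      (Odd (by classical exact
        ((ud D).filter fun d => p ∣ d ∧ d ≠ D ∧ En5 D d).card)) := by
  intro D
  induction D using Nat.strong_induction_on with
  | _ D ih =>
  intro hR p hp hpD
  have hR' := hR
  obtain ⟨hFd, h3, h5⟩ := hR'
  have hD0 : D ≠ 0 := by have := hFd.1; omega
  have hw := w_pos hFd.1
  have hf := core hD0 hp hpD (fun d => if sgd D d = 1 then J 15 o5 D d 1 3 + J 15 o3 D d 1 3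
    else J 15 one D d 1 3 + J 15 one D d 0 1 + J 15 (fun b => o3 b * o5 b) D d 1 3 +
      J 15 (fun b => o3 b * o5 b) D d 0 1)
    (fun d => En5 D d) (D.primeFactors.card - 1) ?_ ?_ ?_
  · have hs1 : sgd D D = 1 := Pool.Agent.N975.RQ.sgd_self hFd
    rw [if_pos hs1, J_self hFd, J_self hFd] at hf
    have hV := (Pool.Agent.N975.RQ.t_VAN15 D 1 (Or.inl hR) un_one (by simp [sgd])).2 hR
      (Or.inl (by simp))
    rw [hV, add_zero] at hf
    convert hf
  · intro d hU
    rw [sgd_inv hFd hU, Pool.Agent.N975.RQ.t_SW _ _ _ _ _ _ hFd hU,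
      Pool.Agent.N975.RQ.t_SW _ _ _ _ _ _ hFd hU, Pool.Agent.N975.RQ.t_SW _ _ _ _ _ _ hFd hU,
      Pool.Agent.N975.RQ.t_SW _ _ _ _ _ _ hFd hU, Pool.Agent.N975.RQ.t_SW _ _ _ _ _ _ hFd hU,
      Pool.Agent.N975.RQ.t_SW _ _ _ _ _ _ hFd hU]
  · rw [show D.primeFactors.card - 1 + 2 = D.primeFactors.card + 1 by omega]
    exact Pool.Agent.N855.RQ.t_INT15 D hR
  · intro d hU h1 hdD
    have hU' := un_co hD0 hU
    obtain ⟨l1, l2, h1', hdD'⟩ := lt_co hD0 hU h1 hdD
    rcases sgd_pm hFd hU with hs | hs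
    · rw [if_pos hs]
      have hs' : sgd D (D / d) = 1 := by rw [sgd_inv hFd hU, hs]
      have hA := fd_pos hFd hU hs h1
      have hB := fd_pos hFd hU'.1 hs' h1'
      have hnE := not_En5 hD0 hU hA hB
      have h3D : ¬ 3 ∣ D := by omega
      have h5D : ¬ 5 ∣ D := by have := jac5.1.1 h5; omega
      have hj3 := jac_tri (p := 3) (by norm_num) hU.1 h3D
      have hj5 := jac_tri (p := 5) (by norm_num) hU.1 h5D
      have hc3 := jac_co (p := 3) hU.1
      have hc5 := jac_co (p := 5) hU.1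
      have e3 : jacobiSym D 3 = 1 := by rw [jac3, if_pos h3]
      rw [e3] at hc3
      rw [h5] at hc5
      obtain ⟨hV1, hV2⟩ := Pool.Agent.N975.RQ.t_VAN15 D d (Or.inl hR) hU hs
      rcases hj3 with hj3 | hj3 <;> rcases hj5 with hj5 | hj5
      · -- `(1, 1)`
        rw [hj3, one_mul] at hc3
        rw [hj5, one_mul] at hc5
        rw [hV2 hR (Or.inl hj3), add_zero, hF D d (Or.inl hR) hU hs h1 hdD hj5 (by rw [hj3]; norm_num)
          (by rw [hc3]; norm_num)]
        have m3 : d % 3 = 1 := by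
          rw [jac3] at hj3
          split_ifs at hj3 <;> first | assumption | omega
        have m3' : (D / d) % 3 = 1 := by
          rcases mul_mod3 hU.1 h3 with h | h <;> omega
        have r1 : R15 d := ⟨hA, m3, hj5⟩
        have r2 : R15 (D / d) := ⟨hB, m3', hc5⟩
        have i1 := (ih d l1 r1 d.minFac (Nat.minFac_prime h1) (Nat.minFac_dvd d)).dvd
        have i2 := (ih (D / d) l2 r2 (D / d).minFac (Nat.minFac_prime h1') (Nat.minFac_dvd _)).dvd
        refine Val.of_dvd ?_ ?_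
        · have h4 := mul_dvd_mul i1 i2
          rw [← pow_add] at h4
          have h5 : (2 : ℤ) ^ (D.primeFactors.card - 1 + 1) = 4 * 2 ^ (d.primeFactors.card - 1 +
              ((D / d).primeFactors.card - 1)) := by
            have hw1 := w_pos hA.1
            have hw2 := w_pos hB.1
            have hw3 := card_co hU
            rw [show D.primeFactors.card - 1 + 1 = 2 + (d.primeFactors.card - 1 +
              ((D / d).primeFactors.card - 1)) by omega, pow_add]
            norm_num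
          rw [h5, neg_mul]
          exact (mul_dvd_mul_left 4 (h4.mul_left _)).neg_right
        · exact hnE
      · -- `(1, -1)`
        rw [hV1 (Or.inr hj5), hV2 hR (Or.inl hj3), add_zero]
        exact Val.zero _ hnE
      · -- `(-1, 1)`
        rw [hV1 (Or.inl hj3), hV2 hR (Or.inr hj5), add_zero]
        exact Val.zero _ hnE
      · -- `(-1, -1)`
        rw [hV1 (Or.inl hj3), zero_add]
        rw [hj3] at hc3
        rw [hj5] at hc5
        have m3 : d % 3 = 2 := by
          rw [jac3] at hj3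
          split_ifs at hj3 <;> assumption
        have m3' : (D / d) % 3 = 2 := by
          rcases mul_mod3 hU.1 h3 with h | h <;> omega
        have aA : Aii d := ⟨ps_fd hA, m3, jac5.2.1 hj5⟩
        have aB : Aii (D / d) := ⟨ps_fd hB, m3', jac5.2.1 (by linarith)⟩
        refine Val.of_dvd ?_ hnE
        rw [show D.primeFactors.card - 1 + 1 = D.primeFactors.card by omega]
        exact hJ D d hR hU hs aA aB
    · rw [if_neg (by rw [hs]; norm_num)]
      have e := (Pool.Agent.N971.RQ.t_NEG15 D d hR hU hs).2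
      rw [add_assoc, e, add_zero]
      exact neg15 H hR hU hs

/-- **the parity step, `3 ∣ D`** -/
theorem par15r (H : RR) (hF : S_FAC15c)
    (hP : ∀ D, R15 D → (2 : ℤ) ^ (D.primeFactors.card - 1) ∣ J 15 o5 D 1 1 3) :
    ∀ D, R15r D → ∀ p, p.Prime → p ∣ D → Val (D.primeFactors.card - 2) (J 15 o5 D 1 1 3)
      (Odd (by classical exact
        ((ud D).filter fun d => p ∣ d ∧ d ≠ D ∧ En5 D d).card)) := by
  intro D
  induction D using Nat.strong_induction_on with
  | _ D ih =>
  intro hR p hp hpD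
  have hR' := hR
  obtain ⟨hFd, h3, h5⟩ := hR'
  have hD0 : D ≠ 0 := by have := hFd.1; omega
  have w2 : ∀ D, R15r D → 2 ≤ D.primeFactors.card := by
    intro D hR
    obtain ⟨hFd, h3, h5⟩ := hR
    have hD0 : D ≠ 0 := by have := hFd.1; omega
    have hm : 3 ∈ D.primeFactors := Nat.mem_primeFactors.2 ⟨by norm_num, h3, hD0⟩
    by_contra h
    have h1 : D.primeFactors.card = 1 := by
      have := card_pos.2 ⟨3, hm⟩
      omega
    obtain ⟨a, ha⟩ := card_eq_one.1 h1
    have h2 : D.primeFactors = {3} := by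
      rw [ha] at hm ⊢
      rw [mem_singleton.1 hm]
    rcases hFd.2 with ⟨h4, h5⟩ | ⟨M, h4, -⟩
    · have := Nat.prod_primeFactors_of_squarefree h4
      rw [h2, prod_singleton] at this
      omega
    · have : 2 ∈ D.primeFactors := Nat.mem_primeFactors.2 ⟨Nat.prime_two, ⟨2 * M, by rw [h4]; ring⟩, hD0⟩
      rw [h2, mem_singleton] at this
      norm_num at this
  have hw := w2 D hR
  have hf := core hD0 hp hpD (fun d => if sgd D d = 1 then J 15 o5 D d 1 3
    else J 15 one D d 1 3 + J 15 one D d 0 1)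
    (fun d => En5 D d) (D.primeFactors.card - 2) ?_ ?_ ?_
  · have hs1 : sgd D D = 1 := Pool.Agent.N975.RQ.sgd_self hFd
    rw [if_pos hs1, J_self hFd] at hf
    convert hf
  · intro d hU
    rw [sgd_inv hFd hU, Pool.Agent.N975.RQ.t_SW _ _ _ _ _ _ hFd hU,
      Pool.Agent.N975.RQ.t_SW _ _ _ _ _ _ hFd hU, Pool.Agent.N975.RQ.t_SW _ _ _ _ _ _ hFd hU]
  · rw [show D.primeFactors.card - 2 + 2 = D.primeFactors.card by omega]
    exact Pool.Agent.N855.RQ.t_INT15r D hR
  · -- the positive divisors prime to `3`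
    have key : ∀ d, Un D d → d ≠ 1 → d ≠ D → sgd D d = 1 → ¬ 3 ∣ d →
        Val (D.primeFactors.card - 2) (J 15 o5 D d 1 3) (En5 D d) := by
      intro d hU h1 hdD hs h3A
      have hU' := un_co hD0 hU
      obtain ⟨l1, l2, h1', hdD'⟩ := lt_co hD0 hU h1 hdD
      have hs' : sgd D (D / d) = 1 := by rw [sgd_inv hFd hU, hs]
      have hA := fd_pos hFd hU hs h1
      have hB := fd_pos hFd hU'.1 hs' h1'
      have hnE := not_En5 hD0 hU hA hB
      have h3B : 3 ∣ D / d := (dvd_co (by norm_num) h3 hU).2 h3A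
      have h5D : ¬ 5 ∣ D := by have := jac5.1.1 h5; omega
      have hj5 := jac_tri (p := 5) (by norm_num) hU.1 h5D
      have hj3 : jacobiSym d 3 = 1 ∨ jacobiSym d 3 = -1 := jac_tri (by norm_num) dvd_rfl h3A
      have hc5 := jac_co (p := 5) hU.1
      rw [h5] at hc5
      obtain ⟨hV1, -⟩ := Pool.Agent.N975.RQ.t_VAN15 D d (Or.inr hR) hU hs
      rcases hj5 with hj5 | hj5
      · rcases hj3 with hj3 | hj3
        · have hz : jacobiSym (D / d : ℕ) 3 = 0 := by
            obtain ⟨t, ht⟩ := h3B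
            rw [ht, jacobiSym.mod_left]
            simp
            norm_num
          rw [hF D d (Or.inr hR) hU hs h1 hdD hj5 (by rw [hj3]; norm_num) (by rw [hz]; norm_num)]
          rw [hj5, one_mul] at hc5
          have m3 : d % 3 = 1 := by
            rw [jac3] at hj3
            split_ifs at hj3 <;> first | assumption | omega
          have r1 : R15 d := ⟨hA, m3, hj5⟩
          have r2 : R15r (D / d) := ⟨hB, h3B, hc5⟩
          have i1 := hP d r1
          have i2 := (ih (D / d) l2 r2 (D / d).minFac (Nat.minFac_prime h1') (Nat.minFac_dvd _)).dvd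
          refine Val.of_dvd ?_ hnE
          have h4 := mul_dvd_mul i1 i2
          rw [← pow_add] at h4
          have h5 : (2 : ℤ) ^ (D.primeFactors.card - 2 + 1) = 4 * 2 ^ (d.primeFactors.card - 1 +
              ((D / d).primeFactors.card - 2)) := by
            have hw1 := w_pos hA.1
            have hw2 := w2 _ r2
            have hw3 := card_co hU
            rw [show D.primeFactors.card - 2 + 1 = 2 + (d.primeFactors.card - 1 +
              ((D / d).primeFactors.card - 2)) by omega, pow_add]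
            norm_num
          rw [h5, neg_mul]
          exact (mul_dvd_mul_left 4 (h4.mul_left _)).neg_right
        · rw [hV1 (Or.inl hj3)]
          exact Val.zero _ hnE
      · rw [hV1 (Or.inr hj5)]
        exact Val.zero _ hnE
    intro d hU h1 hdD
    have hU' := un_co hD0 hU
    obtain ⟨l1, l2, h1', hdD'⟩ := lt_co hD0 hU h1 hdD
    rcases sgd_pm hFd hU with hs | hs
    · rw [if_pos hs]
      by_cases h3A : 3 ∣ d
      · have h := key (D / d) hU'.1 h1' hdD' (by rw [sgd_inv hFd hU, hs]) fun h =>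
          (dvd_co (by norm_num) h3 hU).1 h h3A
        rw [Pool.Agent.N975.RQ.t_SW 15 o5 D d 1 3 hFd hU] at h
        exact h.congr (En5_comm hD0 hU).symm
      · exact key d hU h1 hdD hs h3A
    · rw [if_neg (by rw [hs]; norm_num)]
      exact neg15r H hR hU hs

/-- the crossing numbers with the orientation at `3` -/
theorem hJ15 (hFn : S_FAC15n)
    (hI : ∀ A, Aii A → ∃ κ y : ℤ, (∀ l : ℕ, Nat.Prime l → Pool.Agent.N969.P15.Cls0 l → ¬ l ∣ A →
      9 * Pool.Agent.N973.P15G.P A (A * l) = -4 * κ * Pool.Agent.N969.P15.cc l ^ 2) ∧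
      -κ = (2 ^ A.primeFactors.card * y) ^ 2) :
    ∀ D d, R15 D → Un D d → sgd D d = 1 → Aii d → Aii (D / d) →
      (2 : ℤ) ^ D.primeFactors.card ∣ J 15 o3 D d 1 3 := by
  intro D d hR hU hs hA hB
  obtain ⟨κ, y, h1, h2⟩ := hI d hA
  obtain ⟨κ', y', h1', h2'⟩ := hI (D / d) hB
  have h := hFn D d hR hU hs hA hB κ κ' h1 h1'
  have hw := card_co hU
  have e : J 15 o3 D d 1 3 ^ 2 = (2 ^ D.primeFactors.card * (y * y')) ^ 2 := by
    rw [h, ← hw, pow_add]
    calc κ * κ' = (-κ) * (-κ') := by ring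
      _ = _ := by rw [h2, h2']; ring
  rcases sq_eq_sq_iff_eq_or_eq_neg.1 e with h5 | h5
  · exact ⟨y * y', h5⟩
  · exact ⟨-(y * y'), by rw [h5]; ring⟩

end Pool.Agent.N855.RQp
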